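import Pool.Agent.W973.SRR.Ev4

/-!
# Rationalizability of sets of stable roommates matchings: preferences from an assignment
-/

set_option autoImplicit false

namespace Pool.Agent.W973.SRR.Bwd4

open Pool.Agent.W973.SRR Pool.Agent.NPC

theorem bwd (h1 : S_BAS) (h2 : S4_INV) (h3 : S_STF) (h4 : S_SORT) (h5 : S4_SC) : S4_BWD := by
  intro ψ hD hN
  obtain ⟨τ, hτ⟩ := hN
  obtain ⟨_, hR, _⟩ := h1 ψ
  have hτ' := (hR (fun l1 l2 l3 => ¬ ((τ l1.2 = l1.1 ↔ τ l2.2 = l2.1) ∧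
    (τ l2.2 = l2.1 ↔ τ l3.2 = l3.1)))).1 hτ
  let T : ℕ → Bool := fun i => decide (τ (vv ψ i) = (lit ψ i).1)
  have hT : ∀ c < ψ.length, ¬ (T (3 * c) = T (3 * c + 1) ∧ T (3 * c + 1) = T (3 * c + 2)) := by
    intro c hc h
    apply hτ' c hc
    exact ⟨decide_eq_decide.1 h.1, decide_eq_decide.1 h.2⟩
  have hsc := h5 ψ τ T hD (fun i => rfl) hT
  obtain ⟨P, hP, hPs⟩ := h4 (8 * ψ.length) (sc ψ T)
  have hst : ∀ o : Option ℕ, Stable (8 * ψ.length) P (prs (8 * ψ.length) (mt4 ψ o)) := by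
    intro o
    have hI := h2 ψ hD o
    rw [h3 (8 * ψ.length) P (mt4 ψ o) hI]
    intro a ha b hb hab hba hxy
    obtain ⟨hx, hy⟩ := hxy
    rcases hsc o a ha b hb hab hba with h | h
    · have h6 := hPs a ha (mt4 ψ o a) (hI.lt a ha) b hb (hI.ne a ha) hab.symm h
      exact absurd hx (not_lt.2 (le_of_lt h6))
    · have h6 := hPs b hb (mt4 ψ o b) (hI.lt b hb) a ha (hI.ne b hb) hab h
      exact absurd hy (not_lt.2 (le_of_lt h6))
  have hlen : (red4 ψ).1.length = 8 * ψ.length := by simp [red4]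
  refine ⟨P, ?_, ?_⟩
  · rw [hlen]; exact hP
  · intro M hM
    rw [hlen]
    simp only [red4, List.mem_cons, List.not_mem_nil, or_false] at hM
    rcases hM with rfl | rfl | rfl | rfl
    · exact hst none
    · exact hst (some 0)
    · exact hst (some 1)
    · exact hst (some 2)

theorem val4 (h1 : S4_INV) (h2 : S_PRS) : S4_VAL := by
  intro ψ hC M hM
  have hlen : (red4 ψ).1.length = 8 * ψ.length := by simp [red4]
  rw [hlen]
  simp only [red4, List.mem_cons, List.not_mem_nil, or_false] at hM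
  rcases hM with rfl | rfl | rfl | rfl
  · exact (h2 _ _ (h1 ψ hC _)).1
  · exact (h2 _ _ (h1 ψ hC _)).1
  · exact (h2 _ _ (h1 ψ hC _)).1
  · exact (h2 _ _ (h1 ψ hC _)).1

end Pool.Agent.W973.SRR.Bwd4
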