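import Pool.Agent.H673R2.HardOn
import Pool.Agent.NPC.Sat

/-!
# Rationalizability of sets of stable roommates matchings: definitions and steps
-/

set_option autoImplicit false

namespace Pool.Agent.W973.SRR

open Pool.Agent.NPC Pool.Agent.H673R2

/-! ## The problem -/

/-- Instances: the number `n` of agents, in unary, and a list of matchings, each one a list of
pairs of agents; the agents are `0, ..., n - 1`. -/
abbrev Inst : Type := List Unit × List (List (ℕ × ℕ))

/-- `a` and `b` are matched with each other in `M`. -/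
def Matched (M : List (ℕ × ℕ)) (a b : ℕ) : Prop := (a, b) ∈ M ∨ (b, a) ∈ M

/-- `M` is a matching of the agents `0, ..., n - 1`: pairwise disjoint pairs of distinct agents. -/
def IsMatching (n : ℕ) (M : List (ℕ × ℕ)) : Prop :=
  (∀ p ∈ M, p.1 < n ∧ p.2 < n ∧ p.1 ≠ p.2) ∧
    ∀ a b c, Matched M a b → Matched M a c → b = c

/-- All lists of pairs of the instance are matchings. -/
def Valid (I : Inst) : Prop := ∀ M ∈ I.2, IsMatching I.1.length M

/-- `P` is a stable roommates instance with `n` agents: the list `P[a]` of the agent `a` is a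
permutation of all other agents, the most preferred one first. -/
def IsPrefs (n : ℕ) (P : List (List ℕ)) : Prop :=
  P.length = n ∧ ∀ a < n, (P.getD a []).Perm ((List.range n).filter fun b => decide (b ≠ a))

/-- `a` is unmatched in `M` or it prefers `b` to its partner. -/
def Likes (P : List (List ℕ)) (M : List (ℕ × ℕ)) (a b : ℕ) : Prop :=
  ∀ c, Matched M a c → (P.getD a []).idxOf b < (P.getD a []).idxOf c

/-- No pair of agents which are not matched with each other blocks `M`. -/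
def Stable (n : ℕ) (P : List (List ℕ)) (M : List (ℕ × ℕ)) : Prop :=
  ∀ a < n, ∀ b < n, a ≠ b → ¬ Matched M a b → ¬ (Likes P M a b ∧ Likes P M b a)

/-- All matchings of the instance are stable for suitable preferences. -/
def Rationalizable (I : Inst) : Prop :=
  ∃ P, IsPrefs I.1.length P ∧ ∀ M ∈ I.2, Stable I.1.length P M

/-! ## Not-all-equal satisfiability -/

abbrev CNF : Type := List (Lit ℕ × Lit ℕ × Lit ℕ)

/-- Not-all-equal satisfiability. -/
def NAE (ψ : CNF) : Prop := ∃ τ : ℕ → Bool, ∀ c ∈ ψ,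
  ¬ ((τ c.1.2 = c.1.1 ↔ τ c.2.1.2 = c.2.1.1) ∧ (τ c.2.1.2 = c.2.1.1 ↔ τ c.2.2.2 = c.2.2.1))

/-- Renamed literal. -/
def rl (l : Lit ℕ) : Lit ℕ := (l.1, 3 * l.2)

/-- From 3SAT to not-all-equal satisfiability. -/
def nae (φ : CNF) : CNF := φ.zipIdx.flatMap fun p =>
  [(rl p.1.1, rl p.1.2.1, (true, 3 * p.2 + 1)), ((false, 3 * p.2 + 1), rl p.1.2.2, (true, 2))]

/-! ## The reduction -/

/-- The list of the literal occurrences. -/
def flat (ψ : CNF) : List (Lit ℕ) := ψ.flatMap fun c => [c.1, c.2.1, c.2.2]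

/-- The number of literal occurrences. -/
def NO (ψ : CNF) : ℕ := (flat ψ).length

/-- The literal of the occurrence `i`. -/
def lit (ψ : CNF) (i : ℕ) : Lit ℕ := (flat ψ).getD i (true, 0)

/-- The variable of the occurrence `i`. -/
def vv (ψ : CNF) (i : ℕ) : ℕ := (lit ψ i).2

/-- The occurrences of a variable. -/
def occs (ψ : CNF) (x : ℕ) : List ℕ := (List.range (NO ψ)).filter fun j => decide (vv ψ j = x)

/-- The next occurrence of the same variable, cyclically. -/
def nxt (ψ : CNF) (i : ℕ) : ℕ :=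
  (occs ψ (vv ψ i)).getD (((occs ψ (vv ψ i)).idxOf i + 1) % (occs ψ (vv ψ i)).length) 0

/-- The previous occurrence of the same variable, cyclically. -/
def prv (ψ : CNF) (i : ℕ) : ℕ :=
  (occs ψ (vv ψ i)).getD
    (((occs ψ (vv ψ i)).idxOf i + ((occs ψ (vv ψ i)).length - 1)) % (occs ψ (vv ψ i)).length) 0

/-- The next occurrence in the same clause, cyclically. -/
def nr (i : ℕ) : ℕ := 3 * (i / 3) + (i % 3 + 1) % 3

/-- The previous occurrence in the same clause, cyclically. -/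
def pr (i : ℕ) : ℕ := 3 * (i / 3) + (i % 3 + 2) % 3

/-- Agents: two for each clause `c`, two for each occurrence `i`. -/
def aV (c : ℕ) : ℕ := 8 * c
def aW (c : ℕ) : ℕ := 8 * c + 1
def aP (i : ℕ) : ℕ := 8 * (i / 3) + 2 * (i % 3) + 2
def aQ (i : ℕ) : ℕ := 8 * (i / 3) + 2 * (i % 3) + 3

/-- The terminal where the cycle of the variable leaves the clause of the occurrence `i`. -/
def ot (ψ : CNF) (i : ℕ) : ℕ := if (lit ψ i).1 = true then aQ i else aP (pr i)

/-- The terminal where it enters. -/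
def inn (ψ : CNF) (i : ℕ) : ℕ := if (lit ψ i).1 = true then aP (pr i) else aQ i

/-- The agent connected with `aP i` (a terminal of the occurrence `nr i`). -/
def cnP (ψ : CNF) (i : ℕ) : ℕ :=
  if (lit ψ (nr i)).1 = true then ot ψ (prv ψ (nr i)) else inn ψ (nxt ψ (nr i))

/-- The agent connected with `aQ i` (a terminal of the occurrence `i`). -/
def cnQ (ψ : CNF) (i : ℕ) : ℕ :=
  if (lit ψ i).1 = true then inn ψ (nxt ψ i) else ot ψ (prv ψ i)

/-- The partner of the agent `a` in the matching of the variable `x` (`o = some x`), or in the base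
matching (`o = none`). -/
def mt (ψ : CNF) (o : Option ℕ) (a : ℕ) : ℕ :=
  if a % 8 = 0 then
    (if o = some (vv ψ (3 * (a / 8))) then aP (3 * (a / 8))
    else if o = some (vv ψ (3 * (a / 8) + 1)) then aP (3 * (a / 8) + 1)
    else if o = some (vv ψ (3 * (a / 8) + 2)) then aP (3 * (a / 8) + 2)
    else a + 1)
  else if a % 8 = 1 then
    (if o = some (vv ψ (3 * (a / 8))) then aQ (3 * (a / 8) + 2)
    else if o = some (vv ψ (3 * (a / 8) + 1)) then aQ (3 * (a / 8))
    else if o = some (vv ψ (3 * (a / 8) + 2)) then aQ (3 * (a / 8) + 1)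
    else a - 1)
  else if a % 2 = 0 then
    (if o = some (vv ψ (3 * (a / 8) + (a % 8) / 2 - 1)) then aV (a / 8)
    else if o = some (vv ψ (nr (3 * (a / 8) + (a % 8) / 2 - 1))) then
      cnP ψ (3 * (a / 8) + (a % 8) / 2 - 1)
    else a + 1)
  else
    (if o = some (vv ψ (3 * (a / 8) + (a % 8) / 2 - 1)) then
      cnQ ψ (3 * (a / 8) + (a % 8) / 2 - 1)
    else if o = some (vv ψ (nr (3 * (a / 8) + (a % 8) / 2 - 1))) then aW (a / 8)
    else a - 1)

/-- The list of pairs of an involution. -/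
def prs (n : ℕ) (f : ℕ → ℕ) : List (ℕ × ℕ) :=
  ((List.range n).filter fun a => decide (a < f a)).map fun a => (a, f a)

/-- The instance built from a formula. -/
def red (ψ : CNF) : Inst :=
  (List.replicate (8 * ψ.length) (), prs (8 * ψ.length) (mt ψ none) ::
    (List.range (NO ψ)).map fun j => prs (8 * ψ.length) (mt ψ (some (vv ψ j))))

/-! ## Steps -/

def S_NAE : Prop := ∀ φ : CNF, Distinct3 φ → Distinct3 (nae φ) ∧ (SAT3 φ ↔ NAE (nae φ))

/-- Basic facts about occurrences. -/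
def S_BAS : Prop := ∀ ψ : CNF, NO ψ = 3 * ψ.length ∧
  (∀ R : Lit ℕ → Lit ℕ → Lit ℕ → Prop, (∀ c ∈ ψ, R c.1 c.2.1 c.2.2) ↔
    ∀ k < ψ.length, R (lit ψ (3 * k)) (lit ψ (3 * k + 1)) (lit ψ (3 * k + 2))) ∧
  (Distinct3 ψ → ∀ i < NO ψ, nr i < NO ψ ∧ pr i < NO ψ ∧ vv ψ (nr i) ≠ vv ψ i ∧
    vv ψ (pr i) ≠ vv ψ i ∧ vv ψ (nr i) ≠ vv ψ (pr i))

/-- The cyclic order of the occurrences of a variable. -/
def S_OCC : Prop := ∀ ψ : CNF, (∀ i < NO ψ, nxt ψ i < NO ψ ∧ prv ψ i < NO ψ ∧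
    vv ψ (nxt ψ i) = vv ψ i ∧ vv ψ (prv ψ i) = vv ψ i ∧ prv ψ (nxt ψ i) = i ∧
    nxt ψ (prv ψ i) = i) ∧
  ∀ Q : ℕ → Prop, (∀ i < NO ψ, (Q i ↔ Q (nxt ψ i))) →
    ∀ i < NO ψ, ∀ j < NO ψ, vv ψ i = vv ψ j → (Q i ↔ Q j)

/-- The partners of the agents. -/
def S_EV : Prop := ∀ ψ : CNF, Distinct3 ψ →
  (∀ i < NO ψ, mt ψ (some (vv ψ i)) (aV (i / 3)) = aP i ∧
    mt ψ (some (vv ψ i)) (aW (i / 3)) = aQ (pr i)) ∧
  (∀ c < ψ.length, ∀ o : Option ℕ, (∀ i < NO ψ, i / 3 = c → o ≠ some (vv ψ i)) →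
    mt ψ o (aV c) = aW c ∧ mt ψ o (aW c) = aV c) ∧
  ∀ i < NO ψ, ∀ o : Option ℕ,
    mt ψ o (aP i) = (if o = some (vv ψ i) then aV (i / 3)
      else if o = some (vv ψ (nr i)) then cnP ψ i else aQ i) ∧
    mt ψ o (aQ i) = (if o = some (vv ψ i) then cnQ ψ i
      else if o = some (vv ψ (nr i)) then aW (i / 3) else aP i)

/-- Every agent is of one of the four kinds. -/
def S_KIND : Prop := ∀ (m a : ℕ), a < 8 * m →
  (∃ c < m, a = aV c) ∨ (∃ c < m, a = aW c) ∨ (∃ i < 3 * m, a = aP i) ∨ ∃ i < 3 * m, a = aQ i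

/-- `f` is a perfect matching of the agents `0, ..., n - 1`. -/
structure IsInv (n : ℕ) (f : ℕ → ℕ) : Prop where
  lt : ∀ a < n, f a < n
  inv : ∀ a < n, f (f a) = a
  ne : ∀ a < n, f a ≠ a

def S_INV : Prop := ∀ ψ : CNF, Distinct3 ψ → ∀ o : Option ℕ, IsInv (8 * ψ.length) (mt ψ o)

def S_PRS : Prop := ∀ (n : ℕ) (f : ℕ → ℕ), IsInv n f → IsMatching n (prs n f) ∧
  ∀ a b, Matched (prs n f) a b ↔ a < n ∧ b = f a

/-- `a` prefers `b` to `c`. -/
def Pf (P : List (List ℕ)) (a b c : ℕ) : Prop := (P.getD a []).idxOf b < (P.getD a []).idxOf c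

/-- Stability of a perfect matching given by a function. -/
def StF (n : ℕ) (P : List (List ℕ)) (f : ℕ → ℕ) : Prop :=
  ∀ a < n, ∀ b < n, a ≠ b → b ≠ f a → ¬ (Pf P a b (f a) ∧ Pf P b a (f b))

def S_STF : Prop := ∀ (n : ℕ) (P : List (List ℕ)) (f : ℕ → ℕ), IsInv n f →
  (Stable n P (prs n f) ↔ StF n P f)

/-- Each pair of one stable matching has exactly one end that prefers it to another one. -/
def S_ALT : Prop := ∀ (n : ℕ) (P : List (List ℕ)) (f g : ℕ → ℕ), IsPrefs n P → IsInv n f →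
  IsInv n g → StF n P f → StF n P g → ∀ a < n, f a ≠ g a →
  (Pf P a (g a) (f a) ↔ ¬ Pf P (g a) a (f (g a)))

/-- Strict total preferences. -/
def S_TOT : Prop := ∀ (n : ℕ) (P : List (List ℕ)), IsPrefs n P → ∀ a < n, ∀ b < n, ∀ c < n,
  b ≠ a → c ≠ a → b ≠ c → (Pf P a b c ↔ ¬ Pf P a c b)

/-- From stability to truth values: `T i` says that the agent `aV` of the clause of `i` prefers the
matching of the variable of `i` to the base matching. -/
def S_FW1 : Prop := ∀ (ψ : CNF) (P : List (List ℕ)), Distinct3 ψ → IsPrefs (8 * ψ.length) P →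
  StF (8 * ψ.length) P (mt ψ none) →
  (∀ j < NO ψ, StF (8 * ψ.length) P (mt ψ (some (vv ψ j)))) →
  ∀ i < NO ψ, (Pf P (aV (i / 3)) (aP (nr i)) (aP i) ↔
    Pf P (aV (i / 3)) (aP (nr i)) (aW (i / 3)))

/-- The terminals. -/
def S_FW2 : Prop := ∀ (ψ : CNF) (P : List (List ℕ)), Distinct3 ψ → IsPrefs (8 * ψ.length) P →
  StF (8 * ψ.length) P (mt ψ none) →
  (∀ j < NO ψ, StF (8 * ψ.length) P (mt ψ (some (vv ψ j)))) →
  ∀ i < NO ψ, (Pf P (aQ i) (cnQ ψ i) (aP i) ↔ Pf P (aV (i / 3)) (aP i) (aW (i / 3))) ∧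
    (Pf P (aP (pr i)) (cnP ψ (pr i)) (aQ (pr i)) ↔ ¬ Pf P (aV (i / 3)) (aP i) (aW (i / 3)))

/-- The truth value of the variable does not depend on the occurrence. -/
def S_FW3 : Prop := ∀ (ψ : CNF) (P : List (List ℕ)), Distinct3 ψ → IsPrefs (8 * ψ.length) P →
  StF (8 * ψ.length) P (mt ψ none) →
  (∀ j < NO ψ, StF (8 * ψ.length) P (mt ψ (some (vv ψ j)))) →
  ∀ i < NO ψ,
    ((Pf P (aV (i / 3)) (aP i) (aW (i / 3)) ↔ (lit ψ i).1 = true) ↔
      (Pf P (aV (nxt ψ i / 3)) (aP (nxt ψ i)) (aW (nxt ψ i / 3)) ↔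
        (lit ψ (nxt ψ i)).1 = true))

def S_FWD : Prop := ∀ ψ : CNF, Distinct3 ψ → Rationalizable (red ψ) → NAE ψ

/-! ### Preferences from a satisfying assignment -/

/-- The scores (`T i` is the truth value of the literal of the occurrence `i`). -/
def sc (ψ : CNF) (T : ℕ → Bool) (a b : ℕ) : ℕ :=
  if a % 8 = 0 then
    (if b = a + 1 then 4
    else if b / 8 = a / 8 ∧ b % 8 ≠ 0 ∧ b % 2 = 0 then
      (if T (3 * (b / 8) + (b % 8) / 2 - 1) = true then
        (if T (pr (3 * (b / 8) + (b % 8) / 2 - 1)) = true then 6 else 5)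
      else (if T (pr (3 * (b / 8) + (b % 8) / 2 - 1)) = true then 3 else 2))
    else 0)
  else if a % 8 = 1 then
    (if b + 1 = a then 4
    else if b / 8 = a / 8 ∧ b % 8 ≠ 1 ∧ b % 2 = 1 then
      (if T (nr (3 * (b / 8) + (b % 8) / 2 - 1)) = true then
        (if T (pr (3 * (b / 8) + (b % 8) / 2 - 1)) = true then 2 else 3)
      else (if T (pr (3 * (b / 8) + (b % 8) / 2 - 1)) = true then 5 else 6))
    else 0)
  else if a % 2 = 0 then
    (if b = a + 1 then 4
    else if b = aV (a / 8) then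
      (if T (3 * (a / 8) + (a % 8) / 2 - 1) = true then 3 else 5)
    else if b = cnP ψ (3 * (a / 8) + (a % 8) / 2 - 1) then
      (if T (nr (3 * (a / 8) + (a % 8) / 2 - 1)) = true then 2 else 6)
    else 0)
  else
    (if b + 1 = a then 4
    else if b = cnQ ψ (3 * (a / 8) + (a % 8) / 2 - 1) then
      (if T (3 * (a / 8) + (a % 8) / 2 - 1) = true then 6 else 2)
    else if b = aW (a / 8) then
      (if T (nr (3 * (a / 8) + (a % 8) / 2 - 1)) = true then 5 else 3)
    else 0)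

/-- Lists from scores. -/
def S_SORT : Prop := ∀ (n : ℕ) (s : ℕ → ℕ → ℕ), ∃ P : List (List ℕ), IsPrefs n P ∧
  ∀ a < n, ∀ b < n, ∀ c < n, b ≠ a → c ≠ a → s a c < s a b → Pf P a b c

/-- The scores exclude blocking pairs. -/
def S_SC : Prop := ∀ (ψ : CNF) (τ : ℕ → Bool) (T : ℕ → Bool), Distinct3 ψ →
  (∀ i, T i = decide (τ (vv ψ i) = (lit ψ i).1)) →
  (∀ c < ψ.length, ¬ (T (3 * c) = T (3 * c + 1) ∧ T (3 * c + 1) = T (3 * c + 2))) →
  ∀ o : Option ℕ, ∀ a < 8 * ψ.length, ∀ b < 8 * ψ.length, a ≠ b → b ≠ mt ψ o a →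
    sc ψ T a b < sc ψ T a (mt ψ o a) ∨ sc ψ T b a < sc ψ T b (mt ψ o b)

def S_BWD : Prop := ∀ ψ : CNF, Distinct3 ψ → NAE ψ → Rationalizable (red ψ)

def S_VAL : Prop := ∀ ψ : CNF, Distinct3 ψ → Valid (red ψ)

def S_P1 : Prop := NPC.Poly nae
def S_P2 : Prop := NPC.Poly red

/-! ### Membership in NP -/

/-- Test for matchings. -/
def matB (n : ℕ) (M : List (ℕ × ℕ)) : Bool :=
  (M.all fun p => decide (p.1 < n) && decide (p.2 < n) && decide (p.1 ≠ p.2)) &&
    M.all fun p => M.all fun q => decide (p = q) ||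
      (decide (p.1 = q.2 ∧ p.2 = q.1) ||
        (decide (p.1 ≠ q.1) && decide (p.1 ≠ q.2) && decide (p.2 ≠ q.1) && decide (p.2 ≠ q.2)))

/-- Test for preference lists. -/
def prefB (n : ℕ) (P : List (List ℕ)) : Bool :=
  decide (P.length = n) && (List.range n).all fun a =>
    decide ((P.getD a []).length + 1 = n) &&
      (List.range n).all fun b => decide (b = a) || decide (b ∈ P.getD a [])

/-- Test for `Likes`. -/
def likB (P : List (List ℕ)) (M : List (ℕ × ℕ)) (a b : ℕ) : Bool :=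
  M.all fun p => (decide (p.1 ≠ a) || decide ((P.getD a []).idxOf b < (P.getD a []).idxOf p.2)) &&
    (decide (p.2 ≠ a) || decide ((P.getD a []).idxOf b < (P.getD a []).idxOf p.1))

/-- Test for stability. -/
def stabB (n : ℕ) (P : List (List ℕ)) (M : List (ℕ × ℕ)) : Bool :=
  (List.range n).all fun a => (List.range n).all fun b =>
    decide (a = b) || decide ((a, b) ∈ M) || decide ((b, a) ∈ M) ||
      !(likB P M a b && likB P M b a)

/-- The verifier. -/
def verB (q : Inst × List (List ℕ)) : Bool :=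
  (q.1.2.all fun M => matB q.1.1.length M) && prefB q.1.1.length q.2 &&
    q.1.2.all fun M => stabB q.1.1.length q.2 M

def S_MATB : Prop := ∀ (n : ℕ) (M : List (ℕ × ℕ)), matB n M = true ↔ IsMatching n M
def S_PREFB : Prop := ∀ (n : ℕ) (P : List (List ℕ)), prefB n P = true ↔ IsPrefs n P
def S_STABB : Prop := ∀ (n : ℕ) (P : List (List ℕ)) (M : List (ℕ × ℕ)),
  stabB n P M = true ↔ Stable n P M
def S_PVER : Prop := NPC.Poly verB
def S_MEM : Prop := InNPP (fun I : Inst => Valid I ∧ Rationalizable I)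

end Pool.Agent.W973.SRR
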