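import Pool.Agent.W973.SRR.Defs

/-!
# Rationalizability with four matchings: definitions and steps
-/

set_option autoImplicit false

namespace Pool.Agent.W973.SRR

open Pool.Agent.NPC Pool.Agent.H673R2

/-! ## Formulas in which the variables of a clause have the colours 0, 1, 2 -/

/-- The variable of the occurrence `i` has the colour `i % 3`. -/
def Col (ψ : CNF) : Prop := ∀ i < NO ψ, vv ψ i % 3 = i % 3

/-- Clauses saying that the variables `3x`, `3x+1`, `3x+2` are equal. -/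
def eqc (x : ℕ) : CNF :=
  [((true, 3 * x), (false, 3 * x + 1), (true, 3 * x + 2)),
   ((true, 3 * x), (false, 3 * x + 1), (false, 3 * x + 2)),
   ((true, 3 * x), (true, 3 * x + 1), (false, 3 * x + 2)),
   ((false, 3 * x), (true, 3 * x + 1), (false, 3 * x + 2))]

/-- The coloured formula. -/
def col (ψ : CNF) : CNF := ψ.flatMap fun c =>
  ((c.1.1, 3 * c.1.2), (c.2.1.1, 3 * c.2.1.2 + 1), (c.2.2.1, 3 * c.2.2.2 + 2)) ::
    (eqc c.1.2 ++ (eqc c.2.1.2 ++ eqc c.2.2.2))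

def S4_COL : Prop := ∀ ψ : CNF, Col (col ψ) ∧ (NAE ψ ↔ NAE (col ψ))

def S4_PC : Prop := NPC.Poly col

/-! ## The reduction with four matchings -/

/-- The partner of the agent `a` in the matching of the colour `k` (`o = some k`), or in the base
matching (`o = none`). -/
def mt4 (ψ : CNF) (o : Option ℕ) (a : ℕ) : ℕ :=
  if a % 8 = 0 then
    (if o = some 0 then aP (3 * (a / 8))
    else if o = some 1 then aP (3 * (a / 8) + 1)
    else if o = some 2 then aP (3 * (a / 8) + 2)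
    else a + 1)
  else if a % 8 = 1 then
    (if o = some 0 then aQ (3 * (a / 8) + 2)
    else if o = some 1 then aQ (3 * (a / 8))
    else if o = some 2 then aQ (3 * (a / 8) + 1)
    else a - 1)
  else if a % 2 = 0 then
    (if o = some ((3 * (a / 8) + (a % 8) / 2 - 1) % 3) then aV (a / 8)
    else if o = some (nr (3 * (a / 8) + (a % 8) / 2 - 1) % 3) then
      cnP ψ (3 * (a / 8) + (a % 8) / 2 - 1)
    else a + 1)
  else
    (if o = some ((3 * (a / 8) + (a % 8) / 2 - 1) % 3) then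
      cnQ ψ (3 * (a / 8) + (a % 8) / 2 - 1)
    else if o = some (nr (3 * (a / 8) + (a % 8) / 2 - 1) % 3) then aW (a / 8)
    else a - 1)

/-- The instance built from a formula: four matchings. -/
def red4 (ψ : CNF) : Inst :=
  (List.replicate (8 * ψ.length) (), [prs (8 * ψ.length) (mt4 ψ none),
    prs (8 * ψ.length) (mt4 ψ (some 0)), prs (8 * ψ.length) (mt4 ψ (some 1)),
    prs (8 * ψ.length) (mt4 ψ (some 2))])

/-! ## Steps -/

/-- The partners of the agents. -/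
def S4_EV : Prop := ∀ ψ : CNF,
  (∀ i < NO ψ, mt4 ψ (some (i % 3)) (aV (i / 3)) = aP i ∧
    mt4 ψ (some (i % 3)) (aW (i / 3)) = aQ (pr i)) ∧
  (∀ c < ψ.length, ∀ o : Option ℕ, (∀ k < 3, o ≠ some k) →
    mt4 ψ o (aV c) = aW c ∧ mt4 ψ o (aW c) = aV c) ∧
  ∀ i < NO ψ, ∀ o : Option ℕ,
    mt4 ψ o (aP i) = (if o = some (i % 3) then aV (i / 3)
      else if o = some (nr i % 3) then cnP ψ i else aQ i) ∧
    mt4 ψ o (aQ i) = (if o = some (i % 3) then cnQ ψ i
      else if o = some (nr i % 3) then aW (i / 3) else aP i)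

def S4_INV : Prop := ∀ ψ : CNF, Col ψ → ∀ o : Option ℕ, IsInv (8 * ψ.length) (mt4 ψ o)

/-- From stability to truth values. -/
def S4_FW1 : Prop := ∀ (ψ : CNF) (P : List (List ℕ)), Col ψ → IsPrefs (8 * ψ.length) P →
  StF (8 * ψ.length) P (mt4 ψ none) →
  (∀ k < 3, StF (8 * ψ.length) P (mt4 ψ (some k))) →
  ∀ i < NO ψ, (Pf P (aV (i / 3)) (aP (nr i)) (aP i) ↔
    Pf P (aV (i / 3)) (aP (nr i)) (aW (i / 3)))

/-- The terminals. -/
def S4_FW2 : Prop := ∀ (ψ : CNF) (P : List (List ℕ)), Col ψ → IsPrefs (8 * ψ.length) P →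
  StF (8 * ψ.length) P (mt4 ψ none) →
  (∀ k < 3, StF (8 * ψ.length) P (mt4 ψ (some k))) →
  ∀ i < NO ψ, (Pf P (aQ i) (cnQ ψ i) (aP i) ↔ Pf P (aV (i / 3)) (aP i) (aW (i / 3))) ∧
    (Pf P (aP (pr i)) (cnP ψ (pr i)) (aQ (pr i)) ↔ ¬ Pf P (aV (i / 3)) (aP i) (aW (i / 3)))

/-- The truth value of the variable does not depend on the occurrence. -/
def S4_FW3 : Prop := ∀ (ψ : CNF) (P : List (List ℕ)), Col ψ → IsPrefs (8 * ψ.length) P →
  StF (8 * ψ.length) P (mt4 ψ none) →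
  (∀ k < 3, StF (8 * ψ.length) P (mt4 ψ (some k))) →
  ∀ i < NO ψ,
    ((Pf P (aV (i / 3)) (aP i) (aW (i / 3)) ↔ (lit ψ i).1 = true) ↔
      (Pf P (aV (nxt ψ i / 3)) (aP (nxt ψ i)) (aW (nxt ψ i / 3)) ↔
        (lit ψ (nxt ψ i)).1 = true))

def S4_FWD : Prop := ∀ ψ : CNF, Col ψ → Rationalizable (red4 ψ) → NAE ψ

/-- The scores exclude blocking pairs. -/
def S4_SC : Prop := ∀ (ψ : CNF) (τ : ℕ → Bool) (T : ℕ → Bool), Col ψ →
  (∀ i, T i = decide (τ (vv ψ i) = (lit ψ i).1)) →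
  (∀ c < ψ.length, ¬ (T (3 * c) = T (3 * c + 1) ∧ T (3 * c + 1) = T (3 * c + 2))) →
  ∀ o : Option ℕ, ∀ a < 8 * ψ.length, ∀ b < 8 * ψ.length, a ≠ b → b ≠ mt4 ψ o a →
    sc ψ T a b < sc ψ T a (mt4 ψ o a) ∨ sc ψ T b a < sc ψ T b (mt4 ψ o b)

def S4_BWD : Prop := ∀ ψ : CNF, Col ψ → NAE ψ → Rationalizable (red4 ψ)

def S4_VAL : Prop := ∀ ψ : CNF, Col ψ → Valid (red4 ψ)

def S4_P2 : Prop := NPC.Poly red4

end Pool.Agent.W973.SRR
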