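import Pool.Agent.W973.SRR.Sc

/-! The partners of the agents. -/

set_option autoImplicit false

namespace Pool.Agent.W973.SRR

open Pool.Agent.NPC

theorem ev4 : S4_EV := by
  intro ψ
  refine ⟨fun i hi => ⟨?_, ?_⟩, fun c hc o ho => ⟨?_, ?_⟩, fun i hi o => ⟨?_, ?_⟩⟩
  · unfold mt4
    rw [if_pos (by unfold aV; omega), dV]
    rcases (by omega : i % 3 = 0 ∨ i % 3 = 1 ∨ i % 3 = 2) with r | r | r
    · rw [r, if_pos rfl]
      congr 1
      omega
    · rw [r, if_neg (by simp), if_pos rfl]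
      congr 1
      omega
    · rw [r, if_neg (by simp), if_neg (by simp), if_pos rfl]
      congr 1
      omega
  · unfold mt4
    rw [if_neg (by unfold aW; omega), if_pos (by unfold aW; omega), dW]
    rcases (by omega : i % 3 = 0 ∨ i % 3 = 1 ∨ i % 3 = 2) with r | r | r
    · rw [r, if_pos rfl]
      congr 1
      unfold pr
      omega
    · rw [r, if_neg (by simp), if_pos rfl]
      congr 1
      unfold pr
      omega
    · rw [r, if_neg (by simp), if_neg (by simp), if_pos rfl]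
      congr 1
      unfold pr
      omega
  · unfold mt4
    rw [if_pos (by unfold aV; omega), if_neg (ho 0 (by omega)), if_neg (ho 1 (by omega)),
      if_neg (ho 2 (by omega))]
    rfl
  · unfold mt4
    rw [if_neg (by unfold aW; omega), if_pos (by unfold aW; omega), if_neg (ho 0 (by omega)),
      if_neg (ho 1 (by omega)), if_neg (ho 2 (by omega))]
    unfold aW aV
    omega
  · unfold mt4
    rw [if_neg (by unfold aP; omega), if_neg (by unfold aP; omega),
      if_pos (by unfold aP; omega), ixP, dP]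
    rfl
  · unfold mt4
    rw [if_neg (by unfold aQ; omega), if_neg (by unfold aQ; omega),
      if_neg (by unfold aQ; omega), ixQ, dQ]
    rfl

theorem bt4 (ψ : CNF) (h1 : S_BAS) : ∀ i < NO ψ, nr i < NO ψ ∧ pr i < NO ψ ∧
    nr i % 3 ≠ i % 3 ∧ pr i % 3 ≠ i % 3 ∧ nr i % 3 ≠ pr i % 3 := by
  intro i hi
  have hN : NO ψ = 3 * ψ.length := (h1 ψ).1
  refine ⟨?_, ?_, nr_ne i, pr_ne i, np_ne i⟩
  · unfold nr; omega
  · unfold pr; omega

theorem oc4 (ψ : CNF) (h2 : S_OCC) (hC : Col ψ) : ∀ i < NO ψ, nxt ψ i < NO ψ ∧ prv ψ i < NO ψ ∧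
    nxt ψ i % 3 = i % 3 ∧ prv ψ i % 3 = i % 3 ∧ prv ψ (nxt ψ i) = i ∧
    nxt ψ (prv ψ i) = i := by
  intro i hi
  obtain ⟨a1, a2, a3, a4, a5, a6⟩ := (h2 ψ).1 i hi
  obtain ⟨b1, b2⟩ := nx3 ψ h2 hC i hi
  exact ⟨a1, a2, b1, b2, a5, a6⟩

end Pool.Agent.W973.SRR
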