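import Pool.Agent.W973.SRR.Ev4

/-! Preferences at the terminals. -/

set_option autoImplicit false

namespace Pool.Agent.W973.SRR.Fw24

open Pool.Agent.W973.SRR Pool.Agent.NPC

theorem fw24 (h1 : S_BAS) (h2 : S_OCC) (h3 : S4_EV) (h4 : S4_INV) (h5 : S_ALT) (h6 : S_TOT) :
    S4_FW2 := by
  intro ψ P hD hP h0 hall i hi
  have hNO : NO ψ = 3 * ψ.length := (h1 ψ).1
  obtain ⟨hn, hp, hvn, hvp, hnp⟩ := bt4 ψ h1 i hi
  obtain ⟨e1, e2, e3⟩ := h3 ψ
  have hc : i / 3 < ψ.length := by omega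
  have hst := hall (i % 3) (by omega)
  have If := h4 ψ hD none
  have Ig := h4 ψ hD (some (i % 3))
  have gV : mt4 ψ (some (i % 3)) (aV (i / 3)) = aP i := (e1 i hi).1
  have gW : mt4 ψ (some (i % 3)) (aW (i / 3)) = aQ (pr i) := (e1 i hi).2
  have gP : mt4 ψ (some (i % 3)) (aP i) = aV (i / 3) := by
    rw [(e3 i hi _).1, if_pos rfl]
  have gQ : mt4 ψ (some (i % 3)) (aQ i) = cnQ ψ i := by
    rw [(e3 i hi _).2, if_pos rfl]
  have hne : ¬ some (i % 3) = some (pr i % 3) := fun h => hvp (Option.some.inj h).symm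
  have gPp : mt4 ψ (some (i % 3)) (aP (pr i)) = cnP ψ (pr i) := by
    rw [(e3 (pr i) hp _).1, if_neg hne, nr_pr, if_pos rfl]
  have gQp : mt4 ψ (some (i % 3)) (aQ (pr i)) = aW (i / 3) := by
    rw [(e3 (pr i) hp _).2, if_neg hne, nr_pr, if_pos rfl, pr_d]
  have fV : mt4 ψ none (aV (i / 3)) = aW (i / 3) := (e2 (i / 3) hc none (by simp)).1
  have fW : mt4 ψ none (aW (i / 3)) = aV (i / 3) := (e2 (i / 3) hc none (by simp)).2
  have fP : ∀ k < NO ψ, mt4 ψ none (aP k) = aQ k := by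
    intro k hk
    rw [(e3 k hk _).1]
    simp
  have fQ : ∀ k < NO ψ, mt4 ψ none (aQ k) = aP k := by
    intro k hk
    rw [(e3 k hk _).2]
    simp
  have lV : aV (i / 3) < 8 * ψ.length := by unfold aV; omega
  have lW : aW (i / 3) < 8 * ψ.length := by unfold aW; omega
  have lP : ∀ k < NO ψ, aP k < 8 * ψ.length := by intro k hk; unfold aP; omega
  have lQ : ∀ k < NO ψ, aQ k < 8 * ψ.length := by intro k hk; unfold aQ; omega
  have nQ := neCQ ψ h2 hD i hi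
  have nP := neCP ψ h2 hD (pr i) (by rw [nr_pr]; exact hi)
  have mQ : cnQ ψ i ≠ aQ i := by
    rw [← gQ]
    exact Ig.ne _ (lQ i hi)
  have mP : cnP ψ (pr i) ≠ aP (pr i) := by
    rw [← gPp]
    exact Ig.ne _ (lP _ hp)
  have kQ : cnQ ψ i < 8 * ψ.length := by
    rw [← gQ]
    exact Ig.lt _ (lQ i hi)
  have kP : cnP ψ (pr i) < 8 * ψ.length := by
    rw [← gPp]
    exact Ig.lt _ (lP _ hp)
  constructor
  · have A1 := h5 _ P _ _ hP If Ig h0 hst _ lV (by rw [fV, gV]; exact neWP _ _)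
    rw [gV, fV, fP i hi] at A1
    have A2 := h5 _ P _ _ hP Ig If hst h0 _ (lP i hi) (by rw [gP, fP i hi]; exact neVQ _ _)
    rw [fP i hi, gP, gQ] at A2
    have A3 := h6 _ P hP (aP i) (lP i hi) (aQ i) (lQ i hi) (aV (i / 3)) lV
      (nePQ _ _).symm (neVP _ _) (neVQ _ _).symm
    have A4 := h6 _ P hP (aQ i) (lQ i hi) (aP i) (lP i hi) (cnQ ψ i) kQ
      (nePQ _ _) mQ nQ.symm
    rw [A4, not_not] at A2
    exact A2.symm.trans (A3.trans A1.symm)
  · have B1 := h5 _ P _ _ hP Ig If hst h0 _ lV (by rw [fV, gV]; exact (neWP _ _).symm)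
    rw [fV, gV, gW] at B1
    have B2 := h5 _ P _ _ hP If Ig h0 hst _ lW (by rw [fW, gW]; exact neVQ _ _)
    rw [gW, fW, fQ _ hp] at B2
    have B3 := h5 _ P _ _ hP Ig If hst h0 _ (lQ _ hp)
      (by rw [gQp, fQ _ hp]; exact neWP _ _)
    rw [fQ _ hp, gQp, gPp] at B3
    have C1 := h6 _ P hP (aV (i / 3)) lV (aW (i / 3)) lW (aP i) (lP i hi)
      (neVW _ _).symm (neVP _ _).symm (neWP _ _)
    have C2 := h6 _ P hP (aW (i / 3)) lW (aV (i / 3)) lV (aQ (pr i)) (lQ _ hp)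
      (neVW _ _) (neWQ _ _).symm (neVQ _ _)
    have C3 := h6 _ P hP (aQ (pr i)) (lQ _ hp) (aP (pr i)) (lP _ hp) (aW (i / 3)) lW
      (nePQ _ _) (neWQ _ _) (neWP _ _).symm
    have C4 := h6 _ P hP (aP (pr i)) (lP _ hp) (aQ (pr i)) (lQ _ hp) (cnP ψ (pr i)) kP
      (nePQ _ _).symm mP nP.symm
    rw [C4, not_not] at B3
    rw [C2, not_not] at B1
    exact B3.symm.trans (C3.trans (B2.symm.trans (B1.symm.trans C1)))

end Pool.Agent.W973.SRR.Fw24
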