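import Pool.Agent.W973.SRR.Ev4

set_option autoImplicit false

namespace Pool.Agent.W973.SRR.Fwd4

open Pool.Agent.W973.SRR Pool.Agent.NPC Pool.Agent.H673R2

theorem fwd (h1 : S_BAS) (h2 : S_OCC) (h3 : S4_INV) (h4 : S_STF) (h5 : S4_FW1) (h6 : S4_FW3)
    (h7 : S_TOT) : S4_FWD := by
  intro ψ hD hR
  obtain ⟨P, hP, hst⟩ := hR
  have hlen : (red4 ψ).1.length = 8 * ψ.length := by simp [red4]
  rw [hlen] at hP hst
  have hb : StF (8 * ψ.length) P (mt4 ψ none) :=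
    (h4 _ _ _ (h3 ψ hD none)).1 (hst _ List.mem_cons_self)
  have hj : ∀ k < 3, StF (8 * ψ.length) P (mt4 ψ (some k)) := by
    intro k hk
    apply (h4 _ _ _ (h3 ψ hD _)).1 (hst _ _)
    rcases (by omega : k = 0 ∨ k = 1 ∨ k = 2) with rfl | rfl | rfl <;> simp [red4]
  let T : ℕ → Prop := fun i => Pf P (aV (i / 3)) (aP i) (aW (i / 3))
  let Q : ℕ → Prop := fun i => (T i ↔ (lit ψ i).1 = true)
  have hQ : ∀ i < NO ψ, (Q i ↔ Q (nxt ψ i)) := fun i hi => h6 ψ P hD hP hb hj i hi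
  have hQQ := (h2 ψ).2 Q hQ
  classical
  let τ : ℕ → Bool := fun x => decide (∃ i, i < NO ψ ∧ vv ψ i = x ∧ Q i)
  have hτ : ∀ i < NO ψ, (τ (vv ψ i) = true ↔ Q i) := by
    intro i hi
    simp only [τ, decide_eq_true_eq]
    constructor
    · rintro ⟨j, hj, hv, hq⟩
      exact (hQQ j hj i hi hv).1 hq
    · intro hq
      exact ⟨i, hi, rfl, hq⟩
  have hT : ∀ i < NO ψ, (τ (lit ψ i).2 = (lit ψ i).1 ↔ T i) := by
    intro i hi
    have h := hτ i hi
    change (τ (lit ψ i).2 = true ↔ (T i ↔ (lit ψ i).1 = true)) at h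
    rcases hb1 : (lit ψ i).1 with _ | _
    · rw [hb1] at h
      rcases hb2 : τ (lit ψ i).2 with _ | _
      · rw [hb2] at h
        simp only [Bool.false_eq_true, iff_false, false_iff, not_not] at h
        simp only [true_iff]
        exact h
      · rw [hb2] at h
        simp only [Bool.false_eq_true, iff_false, true_iff] at h
        simp only [Bool.true_eq_false, false_iff]
        exact h
    · rw [hb1] at h
      simp only [iff_true] at h
      exact h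
  have hNO : NO ψ = 3 * ψ.length := (h1 ψ).1
  refine ⟨τ, ?_⟩
  have hkey := ((h1 ψ).2.1 (fun l1 l2 l3 => ¬ ((τ l1.2 = l1.1 ↔ τ l2.2 = l2.1) ∧
    (τ l2.2 = l2.1 ↔ τ l3.2 = l3.1)))).2
  refine hkey ?_
  intro k hk
  have hi0 : 3 * k < NO ψ := by omega
  have hi1 : 3 * k + 1 < NO ψ := by omega
  have hi2 : 3 * k + 2 < NO ψ := by omega
  rw [hT _ hi0, hT _ hi1, hT _ hi2]
  have d0 : 3 * k / 3 = k := by omega
  have d1 : (3 * k + 1) / 3 = k := by omega
  have d2 : (3 * k + 2) / 3 = k := by omega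
  have n0 : nr (3 * k) = 3 * k + 1 := by unfold nr; omega
  have n1 : nr (3 * k + 1) = 3 * k + 2 := by unfold nr; omega
  have n2 : nr (3 * k + 2) = 3 * k := by unfold nr; omega
  have e0 := h5 ψ P hD hP hb hj _ hi0
  have e1 := h5 ψ P hD hP hb hj _ hi1
  have e2 := h5 ψ P hD hP hb hj _ hi2
  rw [n0, d0] at e0
  rw [n1, d1] at e1
  rw [n2, d2] at e2
  have t0 : T (3 * k) ↔ Pf P (aV k) (aP (3 * k)) (aW k) := by
    change Pf P (aV (3 * k / 3)) (aP (3 * k)) (aW (3 * k / 3)) ↔ _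
    rw [d0]
  have t1 : T (3 * k + 1) ↔ Pf P (aV k) (aP (3 * k + 1)) (aW k) := by
    change Pf P (aV ((3 * k + 1) / 3)) (aP (3 * k + 1)) (aW ((3 * k + 1) / 3)) ↔ _
    rw [d1]
  have t2 : T (3 * k + 2) ↔ Pf P (aV k) (aP (3 * k + 2)) (aW k) := by
    change Pf P (aV ((3 * k + 2) / 3)) (aP (3 * k + 2)) (aW ((3 * k + 2) / 3)) ↔ _
    rw [d2]
  rw [← t1] at e0
  rw [← t2] at e1
  rw [← t0] at e2
  have p0 : aP (3 * k) = 8 * k + 2 := by unfold aP; omega
  have p1 : aP (3 * k + 1) = 8 * k + 4 := by unfold aP; omega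
  have p2 : aP (3 * k + 2) = 8 * k + 6 := by unfold aP; omega
  have pv : aV k = 8 * k := rfl
  have r0 : Pf P (aV k) (aP (3 * k)) (aP (3 * k + 1)) ↔
      ¬ Pf P (aV k) (aP (3 * k + 1)) (aP (3 * k)) :=
    h7 _ P hP _ (by omega) _ (by omega) _ (by omega) (by omega) (by omega) (by omega)
  have r1 : Pf P (aV k) (aP (3 * k + 1)) (aP (3 * k + 2)) ↔
      ¬ Pf P (aV k) (aP (3 * k + 2)) (aP (3 * k + 1)) :=
    h7 _ P hP _ (by omega) _ (by omega) _ (by omega) (by omega) (by omega) (by omega)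
  have r2 : Pf P (aV k) (aP (3 * k + 2)) (aP (3 * k)) ↔
      ¬ Pf P (aV k) (aP (3 * k)) (aP (3 * k + 2)) :=
    h7 _ P hP _ (by omega) _ (by omega) _ (by omega) (by omega) (by omega) (by omega)
  rintro ⟨h01, h12⟩
  by_cases hc : T (3 * k)
  · have hc1 := h01.1 hc
    have hc2 := h12.1 hc1
    have q0 := e0.2 hc1
    have q1 := e1.2 hc2
    have q2 := e2.2 hc
    unfold Pf at q0 q1 q2
    omega
  · have hc1 : ¬ T (3 * k + 1) := fun h => hc (h01.2 h)
    have hc2 : ¬ T (3 * k + 2) := fun h => hc1 (h12.2 h)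
    have q0 := r0.2 fun h => hc1 (e0.1 h)
    have q1 := r1.2 fun h => hc2 (e1.1 h)
    have q2 := r2.2 fun h => hc (e2.1 h)
    unfold Pf at q0 q1 q2
    omega

end Pool.Agent.W973.SRR.Fwd4
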