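import Pool.Agent.W973.SRR.Ev4

set_option autoImplicit false

namespace Pool.Agent.W973.SRR.Inv4

open Pool.Agent.W973.SRR Pool.Agent.NPC

theorem nr_div (i : ℕ) : nr i / 3 = i / 3 := by
  unfold nr
  omega

theorem pr_div (i : ℕ) : pr i / 3 = i / 3 := by
  unfold pr
  omega

theorem aP_inj {i j : ℕ} (h : aP i = aP j) : i = j := by
  unfold aP at h
  omega

theorem aQ_inj {i j : ℕ} (h : aQ i = aQ j) : i = j := by
  unfold aQ at h
  omega

theorem aP_ne_aQ (i j : ℕ) : aP i ≠ aQ j := by
  unfold aP aQ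
  omega

theorem aP_lt {i m : ℕ} (h : i < 3 * m) : aP i < 8 * m := by
  unfold aP
  omega

theorem aQ_lt {i m : ℕ} (h : i < 3 * m) : aQ i < 8 * m := by
  unfold aQ
  omega

theorem ot_ne_inn (ψ : CNF) (l l' : ℕ) : ot ψ l ≠ inn ψ l' := by
  unfold ot inn
  intro h
  by_cases h1 : (lit ψ l).1 = true
  · by_cases h2 : (lit ψ l').1 = true
    · rw [if_pos h1, if_pos h2] at h
      exact aP_ne_aQ _ _ h.symm
    · rw [if_pos h1, if_neg h2] at h
      have := aQ_inj h
      subst this
      exact h2 h1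
  · by_cases h2 : (lit ψ l').1 = true
    · rw [if_neg h1, if_pos h2] at h
      have h3 := aP_inj h
      have h4 : l = l' := by
        rw [← nr_pr l, h3, nr_pr]
      subst h4
      exact h1 h2
    · rw [if_neg h1, if_neg h2] at h
      exact aP_ne_aQ _ _ h

theorem inv (h1 : S_BAS) (h2 : S_OCC) (h3 : S4_EV) (h4 : S_KIND) : S4_INV := by
  intro ψ hD o
  have hN : NO ψ = 3 * ψ.length := (h1 ψ).1
  have hB := bt4 ψ h1
  have hO := oc4 ψ h2 hD
  obtain ⟨hE1, hE2', hE3⟩ := h3 ψ
  have hE2 : ∀ c < ψ.length, ∀ o : Option ℕ, (∀ i < NO ψ, i / 3 = c → o ≠ some (i % 3)) →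
      mt4 ψ o (aV c) = aW c ∧ mt4 ψ o (aW c) = aV c := by
    intro c hc o ho
    apply hE2' c hc o
    intro k hk h
    apply ho (3 * c + k) (by omega) (by omega)
    rw [h]
    congr 1
    omega
  set m := ψ.length with hm
  -- ends of the terminals
  have hterm : ∀ l < NO ψ, mt4 ψ (some (l % 3)) (ot ψ l) = inn ψ (nxt ψ l) ∧
      mt4 ψ (some (l % 3)) (inn ψ l) = ot ψ (prv ψ l) := by
    intro l hl
    obtain ⟨hb1, hb2, hb3, hb4, hb5⟩ := hB l hl
    have hQ := (hE3 l hl (some (l % 3))).2
    rw [if_pos rfl] at hQ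
    have hP := (hE3 (pr l) hb2 (some (l % 3))).1
    rw [nr_pr, if_neg (by
      intro h
      exact hb4 (Option.some.inj h).symm), if_pos rfl] at hP
    unfold cnP at hP
    rw [nr_pr] at hP
    unfold cnQ at hQ
    by_cases hs : (lit ψ l).1 = true
    · have e1 : ot ψ l = aQ l := by unfold ot; rw [if_pos hs]
      have e2 : inn ψ l = aP (pr l) := by unfold inn; rw [if_pos hs]
      rw [if_pos hs] at hP hQ
      rw [e1, e2]
      exact ⟨hQ, hP⟩
    · have e1 : ot ψ l = aP (pr l) := by unfold ot; rw [if_neg hs]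
      have e2 : inn ψ l = aQ l := by unfold inn; rw [if_neg hs]
      rw [if_neg hs] at hP hQ
      rw [e1, e2]
      exact ⟨hP, hQ⟩
  have hotlt : ∀ l < NO ψ, ot ψ l < 8 * m ∧ inn ψ l < 8 * m := by
    intro l hl
    obtain ⟨hb1, hb2, -⟩ := hB l hl
    unfold ot inn
    rw [hN] at hl hb2
    constructor
    · split_ifs
      · exact aQ_lt hl
      · exact aP_lt hb2
    · split_ifs
      · exact aP_lt hb2
      · exact aQ_lt hl
  -- the complete statement for the terminals
  have hT : ∀ l < NO ψ, o = some (l % 3) → ∀ a, (a = ot ψ l ∨ a = inn ψ l) →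
      mt4 ψ o a < 8 * m ∧ mt4 ψ o (mt4 ψ o a) = a ∧ mt4 ψ o a ≠ a := by
    intro l hl ho a ha
    obtain ⟨hn, hp, hvn, hvp, hpn, hnp⟩ := hO l hl
    subst ho
    rcases ha with rfl | rfl
    · rw [(hterm l hl).1]
      refine ⟨(hotlt _ hn).2, ?_, fun h => ot_ne_inn ψ _ _ h.symm⟩
      have := (hterm _ hn).2
      rw [hvn, hpn] at this
      exact this
    · rw [(hterm l hl).2]
      refine ⟨(hotlt _ hp).1, ?_, ot_ne_inn ψ _ _⟩
      have := (hterm _ hp).1
      rw [hvp, hnp] at this
      exact this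
  have hmain : ∀ a < 8 * m, mt4 ψ o a < 8 * m ∧ mt4 ψ o (mt4 ψ o a) = a ∧ mt4 ψ o a ≠ a := by
    intro a ha
    rcases h4 m a ha with ⟨c, hc, rfl⟩ | ⟨c, hc, rfl⟩ | ⟨i, hi, rfl⟩ | ⟨i, hi, rfl⟩
    · -- aV
      by_cases hex : ∃ i < NO ψ, i / 3 = c ∧ o = some (i % 3)
      · obtain ⟨i, hi, rfl, rfl⟩ := hex
        rw [(hE1 i hi).1]
        refine ⟨aP_lt (by rw [← hN]; exact hi), ?_, ?_⟩
        · rw [(hE3 i hi _).1, if_pos rfl]
        · unfold aP aV
          omega
      · push Not at hex
        obtain ⟨e1, e2⟩ := hE2 c hc o hex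
        rw [e1]
        refine ⟨?_, e2, ?_⟩
        · unfold aW
          omega
        · unfold aW aV
          omega
    · -- aW
      by_cases hex : ∃ i < NO ψ, i / 3 = c ∧ o = some (i % 3)
      · obtain ⟨i, hi, rfl, rfl⟩ := hex
        obtain ⟨hb1, hb2, hb3, hb4, hb5⟩ := hB i hi
        rw [(hE1 i hi).2]
        refine ⟨aQ_lt (by rw [← hN]; exact hb2), ?_, ?_⟩
        · rw [(hE3 (pr i) hb2 _).2, nr_pr, if_neg (by
            intro h
            exact hb4 (Option.some.inj h).symm), if_pos rfl, pr_div]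
        · unfold aQ aW
          omega
      · push Not at hex
        obtain ⟨e1, e2⟩ := hE2 c hc o hex
        rw [e2]
        refine ⟨?_, e1, ?_⟩
        · unfold aV
          omega
        · unfold aW aV
          omega
    · -- aP
      have hi' : i < NO ψ := by rw [hN]; exact hi
      obtain ⟨hb1, hb2, hb3, hb4, hb5⟩ := hB i hi'
      by_cases ho1 : o = some (i % 3)
      · subst ho1
        rw [(hE3 i hi' _).1, if_pos rfl]
        refine ⟨?_, (hE1 i hi').1, ?_⟩
        · unfold aV
          omega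
        · unfold aV aP
          omega
      · by_cases ho2 : o = some ((nr i) % 3)
        · apply hT (nr i) hb1 ho2
          by_cases hs : (lit ψ (nr i)).1 = true
          · right
            unfold inn
            rw [if_pos hs, pr_nr]
          · left
            unfold ot
            rw [if_neg hs, pr_nr]
        · rw [(hE3 i hi' _).1, if_neg ho1, if_neg ho2]
          refine ⟨aQ_lt hi, ?_, fun h => aP_ne_aQ _ _ h.symm⟩
          rw [(hE3 i hi' _).2, if_neg ho1, if_neg ho2]
    · -- aQ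
      have hi' : i < NO ψ := by rw [hN]; exact hi
      obtain ⟨hb1, hb2, hb3, hb4, hb5⟩ := hB i hi'
      by_cases ho1 : o = some (i % 3)
      · apply hT i hi' ho1
        by_cases hs : (lit ψ i).1 = true
        · left
          unfold ot
          rw [if_pos hs]
        · right
          unfold inn
          rw [if_neg hs]
      · by_cases ho2 : o = some ((nr i) % 3)
        · rw [(hE3 i hi' _).2, if_neg ho1, if_pos ho2]
          refine ⟨?_, ?_, ?_⟩
          · unfold aW
            omega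
          · have := (hE1 (nr i) hb1).2
            rw [nr_div, pr_nr, ← ho2] at this
            exact this
          · unfold aW aQ
            omega
        · rw [(hE3 i hi' _).2, if_neg ho1, if_neg ho2]
          refine ⟨aP_lt hi, ?_, aP_ne_aQ _ _⟩
          rw [(hE3 i hi' _).1, if_neg ho1, if_neg ho2]
  exact ⟨fun a ha => (hmain a ha).1, fun a ha => (hmain a ha).2.1, fun a ha => (hmain a ha).2.2⟩

end Pool.Agent.W973.SRR.Inv4
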