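import Pool.Agent.W973.SRR.Defs2
import Pool.Agent.W132.SRR.P2

/-! The reduction with four matchings is polynomial-time computable. -/

set_option autoImplicit false

namespace Pool.Agent.W973.SRR.P24

open Pool.Agent.W973.SRR Pool.Agent.NPC Pool.Agent.W132.SRR

variable {α : Type} [TEnc α]

theorem poly_eqc {x : α → ℕ} (hx : NPC.Poly x) : NPC.Poly (fun a => eqc (x a)) := by
  have h0 : NPC.Poly (fun a => 3 * x a) := NPC.Poly.mul (NPC.Poly.const 3) hx
  have h1 : NPC.Poly (fun a => 3 * x a + 1) := NPC.Poly.add h0 (NPC.Poly.const 1)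
  have h2 : NPC.Poly (fun a => 3 * x a + 2) := NPC.Poly.add h0 (NPC.Poly.const 2)
  have k : ∀ b0 b1 b2 : Bool, NPC.Poly (fun a =>
      (((b0, 3 * x a), (b1, 3 * x a + 1), (b2, 3 * x a + 2)) : Lit ℕ × Lit ℕ × Lit ℕ)) :=
    fun b0 b1 b2 => NPC.Poly.pair (NPC.Poly.pair (NPC.Poly.const b0) h0)
      (NPC.Poly.pair (NPC.Poly.pair (NPC.Poly.const b1) h1)
        (NPC.Poly.pair (NPC.Poly.const b2) h2))
  exact NPC.Poly.cons (k true false true) (NPC.Poly.cons (k true false false)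
    (NPC.Poly.cons (k true true false) (NPC.Poly.cons (k false true false)
      (NPC.Poly.const []))))

theorem pc : S4_PC := by
  have c0 : NPC.Poly (fun p : CNF × (Lit ℕ × Lit ℕ × Lit ℕ) => p.2.1) :=
    NPC.Poly.fst (NPC.Poly.snd NPC.Poly.id)
  have c1 : NPC.Poly (fun p : CNF × (Lit ℕ × Lit ℕ × Lit ℕ) => p.2.2.1) :=
    NPC.Poly.fst (NPC.Poly.snd (NPC.Poly.snd NPC.Poly.id))
  have c2 : NPC.Poly (fun p : CNF × (Lit ℕ × Lit ℕ × Lit ℕ) => p.2.2.2) :=
    NPC.Poly.snd (NPC.Poly.snd (NPC.Poly.snd NPC.Poly.id))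
  refine NPC.Poly.flatMap (F := fun (_ : CNF) (c : Lit ℕ × Lit ℕ × Lit ℕ) =>
    ((c.1.1, 3 * c.1.2), (c.2.1.1, 3 * c.2.1.2 + 1), (c.2.2.1, 3 * c.2.2.2 + 2)) ::
    (eqc c.1.2 ++ (eqc c.2.1.2 ++ eqc c.2.2.2))) NPC.Poly.id ?_
  refine NPC.Poly.cons ?_ (NPC.Poly.append (poly_eqc (NPC.Poly.snd c0))
    (NPC.Poly.append (poly_eqc (NPC.Poly.snd c1)) (poly_eqc (NPC.Poly.snd c2))))
  exact NPC.Poly.pair
    (NPC.Poly.pair (NPC.Poly.fst c0) (NPC.Poly.mul (NPC.Poly.const 3) (NPC.Poly.snd c0)))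
    (NPC.Poly.pair
      (NPC.Poly.pair (NPC.Poly.fst c1)
        (NPC.Poly.add (NPC.Poly.mul (NPC.Poly.const 3) (NPC.Poly.snd c1)) (NPC.Poly.const 1)))
      (NPC.Poly.pair (NPC.Poly.fst c2)
        (NPC.Poly.add (NPC.Poly.mul (NPC.Poly.const 3) (NPC.Poly.snd c2)) (NPC.Poly.const 2))))

theorem poly_ok {o : α → Option ℕ} {i : α → ℕ} (ho : NPC.Poly o) (hi : NPC.Poly i) :
    NPC.Poly (fun a => decide (o a = some (i a))) :=
  NPC.Poly.decide_eq ho (NPC.Poly.some hi)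

theorem poly_mt4 {f : α → CNF} {o : α → Option ℕ} {x : α → ℕ} (hf : NPC.Poly f)
    (ho : NPC.Poly o) (hx : NPC.Poly x) :
    NPC.Poly (fun a => mt4 (f a) (o a) (x a)) := by
  have h8 : NPC.Poly (fun a => x a / 8) := NPC.Poly.div hx (NPC.Poly.const 8)
  have hm8 : NPC.Poly (fun a => x a % 8) := NPC.Poly.mod hx (NPC.Poly.const 8)
  have hm2 : NPC.Poly (fun a => x a % 2) := NPC.Poly.mod hx (NPC.Poly.const 2)
  have h38 : NPC.Poly (fun a => 3 * (x a / 8)) := NPC.Poly.mul (NPC.Poly.const 3) h8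
  have h381 : NPC.Poly (fun a => 3 * (x a / 8) + 1) := NPC.Poly.add h38 (NPC.Poly.const 1)
  have h382 : NPC.Poly (fun a => 3 * (x a / 8) + 2) := NPC.Poly.add h38 (NPC.Poly.const 2)
  have hi : NPC.Poly (fun a => 3 * (x a / 8) + (x a % 8) / 2 - 1) :=
    NPC.Poly.sub (NPC.Poly.add h38 (NPC.Poly.div hm8 (NPC.Poly.const 2))) (NPC.Poly.const 1)
  have hx1 : NPC.Poly (fun a => x a + 1) := NPC.Poly.add hx (NPC.Poly.const 1)
  have hxm : NPC.Poly (fun a => x a - 1) := NPC.Poly.sub hx (NPC.Poly.const 1)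
  have c0 : NPC.Poly (fun a => decide (o a = some 0)) := poly_ok ho (NPC.Poly.const 0)
  have c1 : NPC.Poly (fun a => decide (o a = some 1)) := poly_ok ho (NPC.Poly.const 1)
  have c2 : NPC.Poly (fun a => decide (o a = some 2)) := poly_ok ho (NPC.Poly.const 2)
  have ci := poly_ok ho (NPC.Poly.mod hi (NPC.Poly.const 3))
  have cn := poly_ok ho (NPC.Poly.mod (poly_nr hi) (NPC.Poly.const 3))
  refine NPC.Poly.ite (p := fun a => x a % 8 = 0) (NPC.Poly.decide_eq hm8 (NPC.Poly.const 0)) ?_ ?_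
  · refine NPC.Poly.ite (p := fun a => o a = some 0) c0 (poly_aP h38) ?_
    refine NPC.Poly.ite (p := fun a => o a = some 1) c1 (poly_aP h381) ?_
    exact NPC.Poly.ite (p := fun a => o a = some 2) c2 (poly_aP h382) hx1
  · refine NPC.Poly.ite (p := fun a => x a % 8 = 1)
      (NPC.Poly.decide_eq hm8 (NPC.Poly.const 1)) ?_ ?_
    · refine NPC.Poly.ite (p := fun a => o a = some 0) c0 (poly_aQ h382) ?_
      refine NPC.Poly.ite (p := fun a => o a = some 1) c1 (poly_aQ h38) ?_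
      exact NPC.Poly.ite (p := fun a => o a = some 2) c2 (poly_aQ h381) hxm
    · refine NPC.Poly.ite (p := fun a => x a % 2 = 0)
        (NPC.Poly.decide_eq hm2 (NPC.Poly.const 0)) ?_ ?_
      · refine NPC.Poly.ite
          (p := fun a => o a = some ((3 * (x a / 8) + (x a % 8) / 2 - 1) % 3)) ci
          (poly_aV h8) ?_
        exact NPC.Poly.ite
          (p := fun a => o a = some (nr (3 * (x a / 8) + (x a % 8) / 2 - 1) % 3)) cn
          (poly_cnP hf hi) hx1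
      · refine NPC.Poly.ite
          (p := fun a => o a = some ((3 * (x a / 8) + (x a % 8) / 2 - 1) % 3)) ci
          (poly_cnQ hf hi) ?_
        exact NPC.Poly.ite
          (p := fun a => o a = some (nr (3 * (x a / 8) + (x a % 8) / 2 - 1) % 3)) cn
          (poly_aW h8) hxm

theorem p24 : S4_P2 := by
  have k : ∀ o : Option ℕ, NPC.Poly (fun ψ : CNF => prs (8 * ψ.length) (mt4 ψ o)) := fun o =>
    poly_prs (g := fun ψ => mt4 ψ o) upoly_n
      (poly_mt4 (NPC.Poly.fst NPC.Poly.id) (NPC.Poly.const o) (NPC.Poly.snd NPC.Poly.id))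
  exact NPC.Poly.pair upoly_n (NPC.Poly.cons (k none) (NPC.Poly.cons (k (some 0))
    (NPC.Poly.cons (k (some 1)) (NPC.Poly.cons (k (some 2)) (NPC.Poly.const [])))))

end Pool.Agent.W973.SRR.P24
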