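import Pool.Agent.W108.SRR.Nae
import Pool.Agent.W549.SRR.BAS
import Pool.Agent.W885.SRR.OCC
import Pool.Agent.W607.SRR.Kind
import Pool.Agent.W675.SRR.Prs
import Pool.Agent.W609.SRR.Stf
import Pool.Agent.W171.SRR.Alt
import Pool.Agent.W691.SRR.Tot
import Pool.Agent.W763.SRR.Sort
import Pool.Agent.W390.SRR.P1
import Pool.Agent.W608.SRR.MATB
import Pool.Agent.W921.SRR.PrefB
import Pool.Agent.W302.SRR.StabB
import Pool.Agent.W757.SRR.PVer
import Pool.Agent.W561.SRR.Mem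
import Pool.Agent.W65.SRR.Col
import Pool.Agent.W973.SRR.P24
import Pool.Agent.W973.SRR.Inv4
import Pool.Agent.W973.SRR.Fw14
import Pool.Agent.W973.SRR.Fw24
import Pool.Agent.W973.SRR.Fw34
import Pool.Agent.W973.SRR.Fwd4
import Pool.Agent.W973.SRR.Bwd4

/-!
# Rationalizability with four matchings: assembly
-/

set_option autoImplicit false

namespace Pool.Agent.W973.SRR

open Pool.Agent.NPC Pool.Agent.H673R2

theorem pinv : S4_INV :=
  Inv4.inv W549.SRR.bas W885.SRR.occ ev4 W607.SRR.kind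

theorem psc : S4_SC :=
  sc4 W549.SRR.bas W885.SRR.occ ev4 W607.SRR.kind pinv

theorem pfw1 : S4_FW1 :=
  Fw14.fw1 W549.SRR.bas W885.SRR.occ ev4 pinv W171.SRR.alt W691.SRR.tot

theorem pfw2 : S4_FW2 :=
  Fw24.fw24 W549.SRR.bas W885.SRR.occ ev4 pinv W171.SRR.alt W691.SRR.tot

theorem pfw3 : S4_FW3 :=
  Fw34.fw3 W549.SRR.bas W885.SRR.occ ev4 pinv W171.SRR.alt W691.SRR.tot pfw2

theorem pstf : S_STF := W609.SRR.stf W675.SRR.prsT

theorem pfwd : S4_FWD :=
  Fwd4.fwd W549.SRR.bas W885.SRR.occ pinv pstf pfw1 pfw3 W691.SRR.tot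

theorem pbwd : S4_BWD :=
  Bwd4.bwd W549.SRR.bas pinv pstf W763.SRR.sort psc

theorem pval : S4_VAL := Bwd4.val4 pinv W675.SRR.prsT

theorem pmem : S_MEM :=
  W561.SRR.mem W608.SRR.matb W921.SRR.prefb W302.SRR.stabb W757.SRR.pver

theorem pcol : S4_COL := W65.SRR.colT W549.SRR.bas

/-- The reduction from 3SAT. -/
def fred (φ : CNF) : Inst := red4 (col (nae φ))

theorem poly_fred : NPC.Poly fred := P24.p24.comp (P24.pc.comp W390.SRR.p1)

theorem phard : NPHardOn (fun I : Inst => Valid I ∧ I.2.length = 4) Rationalizable :=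
  npHardOn_of hardPr_SAT3 poly_fred
    (fun φ _ => ⟨pval _ (pcol _).1, rfl⟩)
    (fun φ hφ => ⟨fun h => pbwd _ (pcol _).1 ((pcol _).2.1 (((W108.SRR.nae φ hφ).2).1 h)),
      fun h => ((W108.SRR.nae φ hφ).2).2 ((pcol _).2.2 (pfwd _ (pcol _).1 h))⟩)

end Pool.Agent.W973.SRR
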