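import Pool.Agent.W973.SRR.Defs2

/-!
# The scores exclude blocking pairs
-/

set_option autoImplicit false

namespace Pool.Agent.W973.SRR

open Pool.Agent.NPC

theorem ixP (i : ℕ) : 3 * (aP i / 8) + aP i % 8 / 2 - 1 = i := by unfold aP; omega
theorem ixQ (i : ℕ) : 3 * (aQ i / 8) + aQ i % 8 / 2 - 1 = i := by unfold aQ; omega
theorem dP (i : ℕ) : aP i / 8 = i / 3 := by unfold aP; omega
theorem dQ (i : ℕ) : aQ i / 8 = i / 3 := by unfold aQ; omega
theorem dV (i : ℕ) : aV i / 8 = i := by unfold aV; omega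
theorem dW (i : ℕ) : aW i / 8 = i := by unfold aW; omega

theorem sc_VV (ψ : CNF) (T : ℕ → Bool) (c d : ℕ) : sc ψ T (aV c) (aV d) = 0 := by
  unfold sc
  rw [if_pos (by unfold aV; omega), if_neg (by unfold aV; omega), if_neg (by unfold aV; omega)]

theorem sc_VW (ψ : CNF) (T : ℕ → Bool) (c d : ℕ) :
    sc ψ T (aV c) (aW d) = if d = c then 4 else 0 := by
  unfold sc
  rw [if_pos (by unfold aV; omega)]
  by_cases h : d = c
  · rw [if_pos h, if_pos (by unfold aV aW; omega)]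
  · rw [if_neg h, if_neg (by unfold aV aW; omega), if_neg (by unfold aV aW; omega)]

theorem sc_VP (ψ : CNF) (T : ℕ → Bool) (c i : ℕ) :
    sc ψ T (aV c) (aP i) = if i / 3 = c then (if T i = true then
        (if T (pr i) = true then 6 else 5)
      else (if T (pr i) = true then 3 else 2)) else 0 := by
  unfold sc
  rw [if_pos (by unfold aV; omega), if_neg (by unfold aV aP; omega)]
  by_cases h : i / 3 = c
  · rw [if_pos h, if_pos (by unfold aV aP; omega), ixP]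
  · rw [if_neg h, if_neg (by unfold aV aP; omega)]

theorem sc_VQ (ψ : CNF) (T : ℕ → Bool) (c i : ℕ) : sc ψ T (aV c) (aQ i) = 0 := by
  unfold sc
  rw [if_pos (by unfold aV; omega), if_neg (by unfold aV aQ; omega),
    if_neg (by unfold aV aQ; omega)]

theorem sc_WV (ψ : CNF) (T : ℕ → Bool) (c d : ℕ) :
    sc ψ T (aW c) (aV d) = if d = c then 4 else 0 := by
  unfold sc
  rw [if_neg (by unfold aW; omega), if_pos (by unfold aW; omega)]
  by_cases h : d = c
  · rw [if_pos h, if_pos (by unfold aV aW; omega)]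
  · rw [if_neg h, if_neg (by unfold aV aW; omega), if_neg (by unfold aV aW; omega)]

theorem sc_WW (ψ : CNF) (T : ℕ → Bool) (c d : ℕ) : sc ψ T (aW c) (aW d) = 0 := by
  unfold sc
  rw [if_neg (by unfold aW; omega), if_pos (by unfold aW; omega),
    if_neg (by unfold aW; omega), if_neg (by unfold aW; omega)]

theorem sc_WP (ψ : CNF) (T : ℕ → Bool) (c i : ℕ) : sc ψ T (aW c) (aP i) = 0 := by
  unfold sc
  rw [if_neg (by unfold aW; omega), if_pos (by unfold aW; omega),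
    if_neg (by unfold aW aP; omega), if_neg (by unfold aW aP; omega)]

theorem sc_WQ (ψ : CNF) (T : ℕ → Bool) (c i : ℕ) :
    sc ψ T (aW c) (aQ i) = if i / 3 = c then (if T (nr i) = true then
        (if T (pr i) = true then 2 else 3)
      else (if T (pr i) = true then 5 else 6)) else 0 := by
  unfold sc
  rw [if_neg (by unfold aW; omega), if_pos (by unfold aW; omega),
    if_neg (by unfold aW aQ; omega)]
  by_cases h : i / 3 = c
  · rw [if_pos h, if_pos (by unfold aW aQ; omega), ixQ]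
  · rw [if_neg h, if_neg (by unfold aW aQ; omega)]

theorem sc_P (ψ : CNF) (T : ℕ → Bool) (i b : ℕ) :
    sc ψ T (aP i) b = if b = aQ i then 4 else if b = aV (i / 3) then
      (if T i = true then 3 else 5) else if b = cnP ψ i then
      (if T (nr i) = true then 2 else 6) else 0 := by
  unfold sc
  rw [if_neg (by unfold aP; omega), if_neg (by unfold aP; omega),
    if_pos (by unfold aP; omega), ixP, dP]
  have h : (b = aP i + 1) = (b = aQ i) := by unfold aP aQ; rfl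
  simp only [h]

theorem sc_Q (ψ : CNF) (T : ℕ → Bool) (i b : ℕ) :
    sc ψ T (aQ i) b = if b = aP i then 4 else if b = cnQ ψ i then
      (if T i = true then 6 else 2) else if b = aW (i / 3) then
      (if T (nr i) = true then 5 else 3) else 0 := by
  unfold sc
  rw [if_neg (by unfold aQ; omega), if_neg (by unfold aQ; omega),
    if_neg (by unfold aQ; omega), ixQ, dQ]
  have h : (b + 1 = aQ i) = (b = aP i) := by
    unfold aP aQ
    apply propext
    omega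
  simp only [h]

theorem tp_ot (ψ : CNF) (i : ℕ) : (∃ j, ot ψ i = aP j) ∨ ∃ j, ot ψ i = aQ j := by
  unfold ot; split_ifs
  · exact Or.inr ⟨_, rfl⟩
  · exact Or.inl ⟨_, rfl⟩

theorem tp_inn (ψ : CNF) (i : ℕ) : (∃ j, inn ψ i = aP j) ∨ ∃ j, inn ψ i = aQ j := by
  unfold inn; split_ifs
  · exact Or.inl ⟨_, rfl⟩
  · exact Or.inr ⟨_, rfl⟩

theorem tp_cnP (ψ : CNF) (i : ℕ) : (∃ j, cnP ψ i = aP j) ∨ ∃ j, cnP ψ i = aQ j := by
  unfold cnP; split_ifs
  · exact tp_ot _ _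
  · exact tp_inn _ _

theorem tp_cnQ (ψ : CNF) (i : ℕ) : (∃ j, cnQ ψ i = aP j) ∨ ∃ j, cnQ ψ i = aQ j := by
  unfold cnQ; split_ifs
  · exact tp_inn _ _
  · exact tp_ot _ _

theorem neVP (c j : ℕ) : aV c ≠ aP j := by unfold aV aP; omega
theorem neVQ (c j : ℕ) : aV c ≠ aQ j := by unfold aV aQ; omega
theorem neWP (c j : ℕ) : aW c ≠ aP j := by unfold aW aP; omega
theorem neWQ (c j : ℕ) : aW c ≠ aQ j := by unfold aW aQ; omega
theorem neVW (c j : ℕ) : aV c ≠ aW j := by unfold aV aW; omega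
theorem nePQ (c j : ℕ) : aP c ≠ aQ j := by unfold aP aQ; omega
theorem injP {i j : ℕ} (h : aP i = aP j) : i = j := by unfold aP at h; omega
theorem injQ {i j : ℕ} (h : aQ i = aQ j) : i = j := by unfold aQ at h; omega
theorem nr_pr (i : ℕ) : nr (pr i) = i := by unfold nr pr; omega
theorem pr_nr (i : ℕ) : pr (nr i) = i := by unfold nr pr; omega
theorem nr_nr (i : ℕ) : nr (nr i) = pr i := by unfold nr pr; omega
theorem pr_pr (i : ℕ) : pr (pr i) = nr i := by unfold nr pr; omega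
theorem nr_ne (i : ℕ) : nr i % 3 ≠ i % 3 := by unfold nr; omega
theorem pr_ne (i : ℕ) : pr i % 3 ≠ i % 3 := by unfold pr; omega
theorem np_ne (i : ℕ) : nr i % 3 ≠ pr i % 3 := by unfold nr pr; omega
theorem nr_d (i : ℕ) : nr i / 3 = i / 3 := by unfold nr; omega
theorem pr_d (i : ℕ) : pr i / 3 = i / 3 := by unfold pr; omega

theorem neVcP (ψ : CNF) (c i : ℕ) : aV c ≠ cnP ψ i := by
  rcases tp_cnP ψ i with ⟨j, h⟩ | ⟨j, h⟩ <;> rw [h]
  · exact neVP _ _
  · exact neVQ _ _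
theorem neWcP (ψ : CNF) (c i : ℕ) : aW c ≠ cnP ψ i := by
  rcases tp_cnP ψ i with ⟨j, h⟩ | ⟨j, h⟩ <;> rw [h]
  · exact neWP _ _
  · exact neWQ _ _
theorem neVcQ (ψ : CNF) (c i : ℕ) : aV c ≠ cnQ ψ i := by
  rcases tp_cnQ ψ i with ⟨j, h⟩ | ⟨j, h⟩ <;> rw [h]
  · exact neVP _ _
  · exact neVQ _ _
theorem neWcQ (ψ : CNF) (c i : ℕ) : aW c ≠ cnQ ψ i := by
  rcases tp_cnQ ψ i with ⟨j, h⟩ | ⟨j, h⟩ <;> rw [h]
  · exact neWP _ _
  · exact neWQ _ _

/-- The statement for one edge. -/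
def Gd (ψ : CNF) (T : ℕ → Bool) (o : Option ℕ) (a b : ℕ) : Prop :=
  sc ψ T a b < sc ψ T a (mt4 ψ o a) ∨ sc ψ T b a < sc ψ T b (mt4 ψ o b)

theorem pos (ψ : CNF) (T : ℕ → Bool) (h1 : S_BAS) (h3 : S4_EV) (o : Option ℕ) :
    (∀ c < ψ.length, 2 ≤ sc ψ T (aV c) (mt4 ψ o (aV c)) ∧ 2 ≤ sc ψ T (aW c) (mt4 ψ o (aW c))) ∧
    ∀ i < NO ψ, 2 ≤ sc ψ T (aP i) (mt4 ψ o (aP i)) ∧ 2 ≤ sc ψ T (aQ i) (mt4 ψ o (aQ i)) := by
  obtain ⟨e1, e2, e3⟩ := h3 ψ
  constructor
  · intro c hc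
    by_cases ho : ∀ k < 3, o ≠ some k
    · obtain ⟨a1, a2⟩ := e2 c hc o ho
      rw [a1, a2, sc_VW, sc_WV]
      simp
    · push Not at ho
      obtain ⟨k, hk, rfl⟩ := ho
      have hN : NO ψ = 3 * ψ.length := (h1 ψ).1
      obtain ⟨a1, a2⟩ := e1 (3 * c + k) (by omega)
      have k1 : (3 * c + k) % 3 = k := by omega
      have k2 : (3 * c + k) / 3 = c := by omega
      rw [k1, k2] at a1 a2
      rw [a1, a2, sc_VP, sc_WQ, pr_d, k2, if_pos rfl, if_pos rfl]
      constructor <;> split_ifs <;> omega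
  · intro i hi
    obtain ⟨a1, a2⟩ := e3 i hi o
    rw [a1, a2]
    constructor
    · rw [sc_P]
      by_cases c1 : o = some (i % 3)
      · simp only [if_pos c1]; split_ifs <;> omega
      · simp only [if_neg c1]
        by_cases c2 : o = some (nr i % 3)
        · simp only [if_pos c2]; split_ifs <;> omega
        · simp only [if_neg c2]; split_ifs <;> omega
    · rw [sc_Q]
      by_cases c1 : o = some (i % 3)
      · simp only [if_pos c1]; split_ifs <;> omega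
      · simp only [if_neg c1]
        by_cases c2 : o = some (nr i % 3)
        · simp only [if_pos c2]; split_ifs <;> omega
        · simp only [if_neg c2]; split_ifs <;> omega

theorem nx3 (ψ : CNF) (h2 : S_OCC) (hC : Col ψ) (l : ℕ) (hl : l < NO ψ) :
    nxt ψ l % 3 = l % 3 ∧ prv ψ l % 3 = l % 3 := by
  obtain ⟨a1, a2, a3, a4, _, _⟩ := (h2 ψ).1 l hl
  have b1 := hC _ a1
  have b2 := hC _ a2
  have b3 := hC _ hl
  rw [a3] at b1
  rw [a4] at b2
  omega

theorem neCP (ψ : CNF) (h2 : S_OCC) (hC : Col ψ) (i : ℕ) (hj : nr i < NO ψ) :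
    cnP ψ i ≠ aQ i := by
  intro h
  obtain ⟨q1, q2⟩ := nx3 ψ h2 hC (nr i) hj
  have q3 := nr_ne i
  unfold cnP ot inn at h
  split_ifs at h
  · have := injQ h
    rw [this] at q2
    omega
  · exact nePQ _ _ h
  · exact nePQ _ _ h
  · have := injQ h
    rw [this] at q1
    omega

theorem neCQ (ψ : CNF) (h2 : S_OCC) (hC : Col ψ) (i : ℕ) (hi : i < NO ψ) :
    cnQ ψ i ≠ aP i := by
  intro h
  obtain ⟨q1, q2⟩ := nx3 ψ h2 hC i hi
  unfold cnQ ot inn at h
  split_ifs at h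
  · have h' := injP h
    have q3 := pr_ne (nxt ψ i)
    rw [h'] at q3
    omega
  · exact nePQ _ _ h.symm
  · exact nePQ _ _ h.symm
  · have h' := injP h
    have q3 := pr_ne (prv ψ i)
    rw [h'] at q3
    omega

/-- The edge between `aV c` and `aP i`. -/
theorem edVP (ψ : CNF) (T : ℕ → Bool) (h3 : S4_EV) (o : Option ℕ) (i : ℕ) (hi : i < NO ψ)
    (hc : i / 3 < ψ.length) (hj : nr i < NO ψ) (hl : pr i < NO ψ)
    (hT : ¬ (T i = T (nr i) ∧ T (nr i) = T (pr i))) (hne : cnP ψ i ≠ aQ i)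
    (hm : aP i ≠ mt4 ψ o (aV (i / 3))) : Gd ψ T o (aV (i / 3)) (aP i) := by
  obtain ⟨e1, e2, e3⟩ := h3 ψ
  unfold Gd
  have a1 := (e3 i hi o).1
  rw [sc_VP, if_pos rfl, a1]
  by_cases c1 : o = some (i % 3)
  · exfalso
    apply hm
    rw [c1, (e1 i hi).1]
  · by_cases c2 : o = some (nr i % 3)
    · have a2 := (e1 (nr i) hj).1
      rw [nr_d, ← c2] at a2
      rw [a2, if_neg c1, if_pos c2, sc_VP, nr_d, if_pos rfl, pr_nr, sc_P, sc_P,
        if_neg (neVQ _ _), if_pos rfl]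
      cases hx : T i <;> cases hy : T (nr i) <;> cases hz : T (pr i) <;>
        simp [hx, hy, hz, (neVcP _ _ _).symm, hne] at hT ⊢
    · by_cases c3 : o = some (pr i % 3)
      · have a2 := (e1 (pr i) hl).1
        rw [pr_d, ← c3] at a2
        rw [a2, if_neg c1, if_neg c2, sc_VP, pr_d, if_pos rfl, pr_pr, sc_P, sc_P,
          if_neg (neVQ _ _), if_pos rfl]
        cases hx : T i <;> cases hy : T (nr i) <;> cases hz : T (pr i) <;>
          simp [hx, hy, hz] at hT ⊢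
      · have ho : ∀ k < 3, o ≠ some k := by
          intro k hk h
          have q1 := nr_ne i
          have q2 := pr_ne i
          have q3 := np_ne i
          have : k = i % 3 ∨ k = nr i % 3 ∨ k = pr i % 3 := by omega
          rcases this with r | r | r
          · exact c1 (r ▸ h)
          · exact c2 (r ▸ h)
          · exact c3 (r ▸ h)
        rw [(e2 _ hc o ho).1, if_neg c1, if_neg c2, sc_VW, sc_P, sc_P,
          if_neg (neVQ _ _), if_pos rfl]
        cases hx : T i <;> cases hy : T (nr i) <;> cases hz : T (pr i) <;>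
          simp [hx, hy, hz] at hT ⊢

/-- The edge between `aW c` and `aQ i`. -/
theorem edWQ (ψ : CNF) (T : ℕ → Bool) (h3 : S4_EV) (o : Option ℕ) (i : ℕ) (hi : i < NO ψ)
    (hc : i / 3 < ψ.length) (hj : nr i < NO ψ) (hl : pr i < NO ψ)
    (hT : ¬ (T i = T (nr i) ∧ T (nr i) = T (pr i))) (hne : cnQ ψ i ≠ aP i)
    (hm : aQ i ≠ mt4 ψ o (aW (i / 3))) : Gd ψ T o (aW (i / 3)) (aQ i) := by
  obtain ⟨e1, e2, e3⟩ := h3 ψ
  unfold Gd
  have a1 := (e3 i hi o).2
  rw [sc_WQ, if_pos rfl, a1]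
  by_cases c1 : o = some (i % 3)
  · have a2 := (e1 i hi).2
    rw [← c1] at a2
    rw [a2, if_pos c1, sc_WQ, pr_d, if_pos rfl, nr_pr, pr_pr, sc_Q, sc_Q,
      if_neg (neWP _ _), if_neg (neWcQ _ _ _), if_pos rfl]
    cases hx : T i <;> cases hy : T (nr i) <;> cases hz : T (pr i) <;>
      simp [hx, hy, hz, hne] at hT ⊢
  · by_cases c2 : o = some (nr i % 3)
    · exfalso
      apply hm
      have a2 := (e1 (nr i) hj).2
      rw [nr_d, ← c2, pr_nr] at a2
      exact a2.symm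
    · by_cases c3 : o = some (pr i % 3)
      · have a2 := (e1 (pr i) hl).2
        rw [pr_d, ← c3, pr_pr] at a2
        rw [a2, if_neg c1, if_neg c2, sc_WQ, nr_d, if_pos rfl, nr_nr, pr_nr, sc_Q, sc_Q,
          if_neg (neWP _ _), if_neg (neWcQ _ _ _), if_pos rfl]
        cases hx : T i <;> cases hy : T (nr i) <;> cases hz : T (pr i) <;>
          simp [hx, hy, hz] at hT ⊢
      · have ho : ∀ k < 3, o ≠ some k := by
          intro k hk h
          have q1 := nr_ne i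
          have q2 := pr_ne i
          have q3 := np_ne i
          have : k = i % 3 ∨ k = nr i % 3 ∨ k = pr i % 3 := by omega
          rcases this with r | r | r
          · exact c1 (r ▸ h)
          · exact c2 (r ▸ h)
          · exact c3 (r ▸ h)
        rw [(e2 _ hc o ho).2, if_neg c1, if_neg c2, sc_WV, sc_Q, sc_Q,
          if_neg (neWP _ _), if_neg (neWcQ _ _ _), if_pos rfl]
        cases hx : T i <;> cases hy : T (nr i) <;> cases hz : T (pr i) <;>
          simp [hx, hy, hz] at hT ⊢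

/-- The edge between `aV c` and `aW c`. -/
theorem edVW (ψ : CNF) (T : ℕ → Bool) (h1 : S_BAS) (h3 : S4_EV) (o : Option ℕ) (c : ℕ)
    (hc : c < ψ.length) (hm : aW c ≠ mt4 ψ o (aV c)) : Gd ψ T o (aV c) (aW c) := by
  obtain ⟨e1, e2, e3⟩ := h3 ψ
  have hN : NO ψ = 3 * ψ.length := (h1 ψ).1
  unfold Gd
  by_cases ho : ∀ k < 3, o ≠ some k
  · exact absurd (e2 c hc o ho).1.symm hm
  · push Not at ho
    obtain ⟨k, hk, rfl⟩ := ho
    obtain ⟨a1, a2⟩ := e1 (3 * c + k) (by omega)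
    have k1 : (3 * c + k) % 3 = k := by omega
    have k2 : (3 * c + k) / 3 = c := by omega
    rw [k1, k2] at a1 a2
    rw [a1, a2, sc_VP, sc_WQ, pr_d, k2, if_pos rfl, if_pos rfl, sc_VW, sc_WV, nr_pr, pr_pr]
    cases hx : T (3 * c + k) <;> cases hy : T (nr (3 * c + k)) <;>
      cases hz : T (pr (3 * c + k)) <;> simp

/-- The edge between `aP i` and `aQ i`. -/
theorem edPQ (ψ : CNF) (T : ℕ → Bool) (h3 : S4_EV) (o : Option ℕ) (i : ℕ)
    (hi : i < NO ψ) (n1 : cnP ψ i ≠ aQ i) (n2 : cnQ ψ i ≠ aP i)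
    (hm : aQ i ≠ mt4 ψ o (aP i)) : Gd ψ T o (aP i) (aQ i) := by
  obtain ⟨e1, e2, e3⟩ := h3 ψ
  obtain ⟨a1, a2⟩ := e3 i hi o
  unfold Gd
  rw [a1] at hm
  rw [a1, a2, sc_P, sc_P, sc_Q, sc_Q]
  by_cases c1 : o = some (i % 3)
  · simp only [if_pos c1]
    cases hx : T i <;> simp [hx, n1, n2, neVQ, neWP]
  · by_cases c2 : o = some (nr i % 3)
    · simp only [if_neg c1, if_pos c2]
      cases hx : T (nr i) <;> simp [hx, n1, n2, neVQ, neWP, neVcP, neWcQ, (neVcP _ _ _).symm]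
    · exfalso
      rw [if_neg c1, if_neg c2] at hm
      exact hm rfl

/-- The partners of the terminals, if they are not connected. -/
theorem pgQ (ψ : CNF) (T : ℕ → Bool) (h3 : S4_EV) (o : Option ℕ) (i : ℕ)
    (hi : i < NO ψ) (ho : o ≠ some (i % 3)) : 3 ≤ sc ψ T (aQ i) (mt4 ψ o (aQ i)) := by
  obtain ⟨e1, e2, e3⟩ := h3 ψ
  rw [(e3 i hi o).2, if_neg ho, sc_Q]
  by_cases c2 : o = some (nr i % 3)
  · simp only [if_pos c2, if_neg (neWP _ _), if_neg (neWcQ _ _ _)]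
    split_ifs <;> omega
  · simp only [if_neg c2]
    split_ifs <;> omega

theorem pgP (ψ : CNF) (T : ℕ → Bool) (h3 : S4_EV) (o : Option ℕ) (i : ℕ)
    (hi : i < NO ψ) (ho : o ≠ some (nr i % 3)) : 3 ≤ sc ψ T (aP i) (mt4 ψ o (aP i)) := by
  obtain ⟨e1, e2, e3⟩ := h3 ψ
  rw [(e3 i hi o).1, if_neg ho, sc_P]
  by_cases c2 : o = some (i % 3)
  · simp only [if_pos c2, if_neg (neVQ _ _)]
    split_ifs <;> omega
  · simp only [if_neg c2]
    split_ifs <;> omega

theorem scCP (ψ : CNF) (T : ℕ → Bool) (i : ℕ) (n1 : cnP ψ i ≠ aQ i) :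
    sc ψ T (aP i) (cnP ψ i) = if T (nr i) = true then 2 else 6 := by
  rw [sc_P, if_neg n1, if_neg (neVcP _ _ _).symm, if_pos rfl]

theorem scCQ (ψ : CNF) (T : ℕ → Bool) (i : ℕ) (n1 : cnQ ψ i ≠ aP i) :
    sc ψ T (aQ i) (cnQ ψ i) = if T i = true then 6 else 2 := by
  rw [sc_Q, if_neg n1, if_pos rfl]

/-- The connection out of the occurrence `l`. -/
theorem sOT (ψ : CNF) (τ T : ℕ → Bool) (h1 : S_BAS) (h2 : S_OCC) (hC : Col ψ)
    (hT : ∀ i, T i = decide (τ (vv ψ i) = (lit ψ i).1)) (h3 : S4_EV) (o : Option ℕ)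
    (l : ℕ) (hl : l < NO ψ) (ho : o ≠ some (l % 3)) :
    sc ψ T (ot ψ l) (inn ψ (nxt ψ l)) = (if τ (vv ψ l) = true then 6 else 2) ∧
      3 ≤ sc ψ T (ot ψ l) (mt4 ψ o (ot ψ l)) := by
  have hN : NO ψ = 3 * ψ.length := (h1 ψ).1
  have hp : pr l < NO ψ := by unfold pr; omega
  cases hs : (lit ψ l).1
  · have e : ot ψ l = aP (pr l) := by unfold ot; rw [hs]; simp
    have e2 : inn ψ (nxt ψ l) = cnP ψ (pr l) := by
      unfold cnP; rw [nr_pr, hs]; simp
    rw [e, e2, scCP _ _ _ (neCP ψ h2 hC (pr l) (by rw [nr_pr]; exact hl)), nr_pr, hT, hs]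
    refine ⟨?_, pgP ψ T h3 o (pr l) hp (by rw [nr_pr]; exact ho)⟩
    cases τ (vv ψ l) <;> simp
  · have e : ot ψ l = aQ l := by unfold ot; rw [hs]; simp
    have e2 : inn ψ (nxt ψ l) = cnQ ψ l := by
      unfold cnQ; rw [hs]; simp
    rw [e, e2, scCQ _ _ _ (neCQ ψ h2 hC l hl), hT, hs]
    refine ⟨?_, pgQ ψ T h3 o l hl ho⟩
    cases τ (vv ψ l) <;> simp

/-- The connection into the occurrence `l`. -/
theorem sIN (ψ : CNF) (τ T : ℕ → Bool) (h1 : S_BAS) (h2 : S_OCC) (hC : Col ψ)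
    (hT : ∀ i, T i = decide (τ (vv ψ i) = (lit ψ i).1)) (h3 : S4_EV) (o : Option ℕ)
    (l : ℕ) (hl : l < NO ψ) (ho : o ≠ some (l % 3)) :
    sc ψ T (inn ψ l) (ot ψ (prv ψ l)) = (if τ (vv ψ l) = true then 2 else 6) ∧
      3 ≤ sc ψ T (inn ψ l) (mt4 ψ o (inn ψ l)) := by
  have hN : NO ψ = 3 * ψ.length := (h1 ψ).1
  have hp : pr l < NO ψ := by unfold pr; omega
  cases hs : (lit ψ l).1
  · have e : inn ψ l = aQ l := by unfold inn; rw [hs]; simp
    have e2 : ot ψ (prv ψ l) = cnQ ψ l := by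
      unfold cnQ; rw [hs]; simp
    rw [e, e2, scCQ _ _ _ (neCQ ψ h2 hC l hl), hT, hs]
    refine ⟨?_, pgQ ψ T h3 o l hl ho⟩
    cases τ (vv ψ l) <;> simp
  · have e : inn ψ l = aP (pr l) := by unfold inn; rw [hs]; simp
    have e2 : ot ψ (prv ψ l) = cnP ψ (pr l) := by
      unfold cnP; rw [nr_pr, hs]; simp
    rw [e, e2, scCP _ _ _ (neCP ψ h2 hC (pr l) (by rw [nr_pr]; exact hl)), nr_pr, hT, hs]
    refine ⟨?_, pgP ψ T h3 o (pr l) hp (by rw [nr_pr]; exact ho)⟩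
    cases τ (vv ψ l) <;> simp

theorem edOT (ψ : CNF) (τ T : ℕ → Bool) (h1 : S_BAS) (h2 : S_OCC) (hC : Col ψ)
    (hT : ∀ i, T i = decide (τ (vv ψ i) = (lit ψ i).1)) (h3 : S4_EV) (o : Option ℕ)
    (l : ℕ) (hl : l < NO ψ) (ho : o ≠ some (l % 3)) :
    Gd ψ T o (ot ψ l) (inn ψ (nxt ψ l)) := by
  obtain ⟨a1, a2, a3, a4, a5, a6⟩ := (h2 ψ).1 l hl
  obtain ⟨b1, b2⟩ := sOT ψ τ T h1 h2 hC hT h3 o l hl ho
  obtain ⟨b3, b4⟩ := sIN ψ τ T h1 h2 hC hT h3 o (nxt ψ l) a1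
    (by rw [(nx3 ψ h2 hC l hl).1]; exact ho)
  rw [a5, a3] at b3
  unfold Gd
  rw [b1, b3]
  cases τ (vv ψ l)
  · left; simp; omega
  · right; simp; omega

theorem edIN (ψ : CNF) (τ T : ℕ → Bool) (h1 : S_BAS) (h2 : S_OCC) (hC : Col ψ)
    (hT : ∀ i, T i = decide (τ (vv ψ i) = (lit ψ i).1)) (h3 : S4_EV) (o : Option ℕ)
    (l : ℕ) (hl : l < NO ψ) (ho : o ≠ some (l % 3)) :
    Gd ψ T o (inn ψ l) (ot ψ (prv ψ l)) := by
  obtain ⟨a1, a2, a3, a4, a5, a6⟩ := (h2 ψ).1 l hl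
  have := edOT ψ τ T h1 h2 hC hT h3 o (prv ψ l) a2
    (by rw [(nx3 ψ h2 hC l hl).2]; exact ho)
  rw [a6] at this
  exact this.symm

/-- Connection edges at `aP i`. -/
theorem edCP (ψ : CNF) (τ T : ℕ → Bool) (h1 : S_BAS) (h2 : S_OCC) (hC : Col ψ)
    (hT : ∀ i, T i = decide (τ (vv ψ i) = (lit ψ i).1)) (h3 : S4_EV) (o : Option ℕ)
    (i : ℕ) (hj : nr i < NO ψ) (ho : o ≠ some (nr i % 3)) : Gd ψ T o (aP i) (cnP ψ i) := by
  cases hs : (lit ψ (nr i)).1
  · have e : ot ψ (nr i) = aP i := by unfold ot; rw [hs]; simp [pr_nr]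
    have e2 : cnP ψ i = inn ψ (nxt ψ (nr i)) := by unfold cnP; rw [hs]; simp
    rw [← e, e2]
    exact edOT ψ τ T h1 h2 hC hT h3 o (nr i) hj ho
  · have e : inn ψ (nr i) = aP i := by unfold inn; rw [hs]; simp [pr_nr]
    have e2 : cnP ψ i = ot ψ (prv ψ (nr i)) := by unfold cnP; rw [hs]; simp
    rw [← e, e2]
    exact edIN ψ τ T h1 h2 hC hT h3 o (nr i) hj ho

/-- Connection edges at `aQ i`. -/
theorem edCQ (ψ : CNF) (τ T : ℕ → Bool) (h1 : S_BAS) (h2 : S_OCC) (hC : Col ψ)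
    (hT : ∀ i, T i = decide (τ (vv ψ i) = (lit ψ i).1)) (h3 : S4_EV) (o : Option ℕ)
    (i : ℕ) (hi : i < NO ψ) (ho : o ≠ some (i % 3)) : Gd ψ T o (aQ i) (cnQ ψ i) := by
  cases hs : (lit ψ i).1
  · have e : inn ψ i = aQ i := by unfold inn; rw [hs]; simp
    have e2 : cnQ ψ i = ot ψ (prv ψ i) := by unfold cnQ; rw [hs]; simp
    rw [← e, e2]
    exact edIN ψ τ T h1 h2 hC hT h3 o i hi ho
  · have e : ot ψ i = aQ i := by unfold ot; rw [hs]; simp
    have e2 : cnQ ψ i = inn ψ (nxt ψ i) := by unfold cnQ; rw [hs]; simp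
    rw [← e, e2]
    exact edOT ψ τ T h1 h2 hC hT h3 o i hi ho

theorem sc4 (h1 : S_BAS) (h2 : S_OCC) (h3 : S4_EV) (h4 : S_KIND) (h5 : S4_INV) : S4_SC := by
  intro ψ τ T hC hT hN4 o a ha b hb hab hm
  have hN : NO ψ = 3 * ψ.length := (h1 ψ).1
  have hm2 : a ≠ mt4 ψ o b := by
    intro h
    apply hm
    rw [h, (h5 ψ hC o).inv b hb]
  have hnr : ∀ i < NO ψ, nr i < NO ψ := by intro i hi; unfold nr; omega
  have hpr : ∀ i < NO ψ, pr i < NO ψ := by intro i hi; unfold pr; omega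
  have hT3 : ∀ i < NO ψ, ¬ (T i = T (nr i) ∧ T (nr i) = T (pr i)) := by
    intro i hi
    have := hN4 (i / 3) (by omega)
    rcases (by omega : i = 3 * (i / 3) ∨ i = 3 * (i / 3) + 1 ∨ i = 3 * (i / 3) + 2)
      with r | r | r
    · have q1 : nr i = 3 * (i / 3) + 1 := by unfold nr; omega
      have q2 : pr i = 3 * (i / 3) + 2 := by unfold pr; omega
      have e : T i = T (3 * (i / 3)) := congrArg T r
      rw [q1, q2, e]
      exact this
    · have q1 : nr i = 3 * (i / 3) + 2 := by unfold nr; omega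
      have q2 : pr i = 3 * (i / 3) := by unfold pr; omega
      have e : T i = T (3 * (i / 3) + 1) := congrArg T r
      rw [q1, q2, e]
      rintro ⟨u, v⟩
      exact this ⟨by rw [u, v], u⟩
    · have q1 : nr i = 3 * (i / 3) := by unfold nr; omega
      have q2 : pr i = 3 * (i / 3) + 1 := by unfold pr; omega
      have e : T i = T (3 * (i / 3) + 2) := congrArg T r
      rw [q1, q2, e]
      rintro ⟨u, v⟩
      exact this ⟨v, by rw [u, v]⟩
  have nP : ∀ i < NO ψ, cnP ψ i ≠ aQ i := fun i hi => neCP ψ h2 hC i (hnr i hi)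
  have nQ : ∀ i < NO ψ, cnQ ψ i ≠ aP i := fun i hi => neCQ ψ h2 hC i hi
  obtain ⟨p1, p2⟩ := pos ψ T h1 h3 o
  have hpos : ∀ x < 8 * ψ.length, 2 ≤ sc ψ T x (mt4 ψ o x) := by
    intro x hx
    rcases h4 _ x hx with ⟨c, hc, rfl⟩ | ⟨c, hc, rfl⟩ | ⟨i, hi, rfl⟩ | ⟨i, hi, rfl⟩
    · exact (p1 c hc).1
    · exact (p1 c hc).2
    · exact (p2 i (by omega)).1
    · exact (p2 i (by omega)).2
  have z1 : sc ψ T a b = 0 → Gd ψ T o a b := by
    intro h
    left
    rw [h]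
    have := hpos a ha
    omega
  have z2 : sc ψ T b a = 0 → Gd ψ T o a b := by
    intro h
    right
    rw [h]
    have := hpos b hb
    omega
  have cP : ∀ i < NO ψ, cnP ψ i ≠ mt4 ψ o (aP i) → Gd ψ T o (aP i) (cnP ψ i) := by
    intro i hi h
    apply edCP ψ τ T h1 h2 hC hT h3 o i (hnr i hi)
    intro ho
    apply h
    rw [((h3 ψ).2.2 i hi o).1, if_neg, if_pos ho]
    rw [ho]
    intro h
    exact nr_ne i (Option.some.inj h)
  have cQ : ∀ i < NO ψ, cnQ ψ i ≠ mt4 ψ o (aQ i) → Gd ψ T o (aQ i) (cnQ ψ i) := by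
    intro i hi h
    apply edCQ ψ τ T h1 h2 hC hT h3 o i hi
    intro ho
    apply h
    rw [((h3 ψ).2.2 i hi o).2, if_pos ho]
  change Gd ψ T o a b
  rcases h4 _ a ha with ⟨c, hc, rfl⟩ | ⟨c, hc, rfl⟩ | ⟨i, hi, rfl⟩ | ⟨i, hi, rfl⟩ <;>
    rcases h4 _ b hb with ⟨d, hd, rfl⟩ | ⟨d, hd, rfl⟩ | ⟨j, hj, rfl⟩ | ⟨j, hj, rfl⟩
  · exact z1 (sc_VV _ _ _ _)
  · by_cases hcd : d = c
    · subst hcd
      exact edVW ψ T h1 h3 o _ hc hm
    · exact z1 (by rw [sc_VW, if_neg hcd])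
  · by_cases hcd : j / 3 = c
    · subst hcd
      have hj' : j < NO ψ := by omega
      exact edVP ψ T h3 o j hj' hc (hnr j hj') (hpr j hj') (hT3 j hj') (nP j hj') hm
    · exact z1 (by rw [sc_VP, if_neg hcd])
  · exact z1 (sc_VQ _ _ _ _)
  · by_cases hcd : c = d
    · subst hcd
      exact (edVW ψ T h1 h3 o _ hc hm2).symm
    · exact z2 (by rw [sc_VW, if_neg hcd])
  · exact z1 (sc_WW _ _ _ _)
  · exact z1 (sc_WP _ _ _ _)
  · by_cases hcd : j / 3 = c
    · subst hcd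
      have hj' : j < NO ψ := by omega
      exact edWQ ψ T h3 o j hj' hc (hnr j hj') (hpr j hj') (hT3 j hj') (nQ j hj') hm
    · exact z1 (by rw [sc_WQ, if_neg hcd])
  · by_cases hcd : i / 3 = d
    · subst hcd
      have hi' : i < NO ψ := by omega
      exact (edVP ψ T h3 o i hi' hd (hnr i hi') (hpr i hi') (hT3 i hi') (nP i hi') hm2).symm
    · exact z2 (by rw [sc_VP, if_neg hcd])
  · exact z2 (sc_WP _ _ _ _)
  · have hi' : i < NO ψ := by omega
    by_cases h : aP j = cnP ψ i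
    · rw [h] at hm ⊢
      exact cP i hi' hm
    · exact z1 (by rw [sc_P, if_neg (nePQ _ _), if_neg (neVP _ _).symm, if_neg h])
  · have hi' : i < NO ψ := by omega
    by_cases hij : j = i
    · subst hij
      exact edPQ ψ T h3 o j hi' (nP j hi') (nQ j hi') hm
    · by_cases h : aQ j = cnP ψ i
      · rw [h] at hm ⊢
        exact cP i hi' hm
      · exact z1 (by rw [sc_P, if_neg (fun e => hij (injQ e)), if_neg (neVQ _ _).symm, if_neg h])
  · exact z2 (sc_VQ _ _ _ _)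
  · by_cases hcd : i / 3 = d
    · subst hcd
      have hi' : i < NO ψ := by omega
      exact (edWQ ψ T h3 o i hi' hd (hnr i hi') (hpr i hi') (hT3 i hi') (nQ i hi') hm2).symm
    · exact z2 (by rw [sc_WQ, if_neg hcd])
  · have hj' : j < NO ψ := by omega
    by_cases hij : i = j
    · subst hij
      exact (edPQ ψ T h3 o i hj' (nP i hj') (nQ i hj') hm2).symm
    · by_cases h : aQ i = cnP ψ j
      · rw [h] at hm2 ⊢
        exact (cP j hj' hm2).symm
      · exact z2 (by rw [sc_P, if_neg (fun e => hij (injQ e)), if_neg (neVQ _ _).symm, if_neg h])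
  · have hi' : i < NO ψ := by omega
    by_cases h : aQ j = cnQ ψ i
    · rw [h] at hm ⊢
      exact cQ i hi' hm
    · exact z1 (by rw [sc_Q, if_neg (nePQ _ _).symm, if_neg h, if_neg (neWQ _ _).symm])

end Pool.Agent.W973.SRR
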